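import Pool.Agent.K2B.Stmts

/-!
# Assembly
-/

set_option autoImplicit false

open Polynomial
open scoped TensorProduct

namespace Pool.Agent.K2B

open Pool.Agent.BEK

noncomputable section

namespace All

/-! ## The integral part -/

theorem tameQ_eq_zero {F : Type} [Field F] (v : DV F) (a b : Fˣ) (h : v.tame a b ^ 4 = 1) :
    tameQ v (usymb a b) = 0 := by
  rw [tameQ_usymb]
  have h1 : (4 : ℚ) • ((1 : ℚ) ⊗ₜ[ℤ] Additive.ofMul (v.tame a b)) = 0 := by
    have h2 : (4 : ℕ) • (Additive.ofMul (v.tame a b)) = 0 := by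
      rw [← ofMul_pow, h, ofMul_one]
    have h3 : (4 : ℕ) • ((1 : ℚ) ⊗ₜ[ℤ] Additive.ofMul (v.tame a b)) = 0 := by
      rw [← TensorProduct.tmul_smul, h2, TensorProduct.tmul_zero]
    rw [← h3, ← Nat.cast_smul_eq_nsmul ℚ]
    norm_num
  exact (smul_eq_zero.1 h1).resolve_left (by norm_num)

theorem fy_ne {k : Type} [Field k] (hGen : Stmt_Gen) {g : ℕ} (α : Fin (g + 1) → k) :
    fy α ≠ 0 := by
  intro h
  have := (hGen k g α).1
  rw [h] at this
  simp at this

theorem fx_sub_ne {k : Type} [Field k] (hGen : Stmt_Gen) {g : ℕ} (α : Fin (g + 1) → k) (c : k) :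
    fx α - cst α c ≠ 0 := sub_ne_zero.2 ((hGen k g α).2.1 c)

theorem xi_mem (hInteg : Stmt_Integ) (hGen : Stmt_Gen) {k : Type} [Field k] {g : ℕ}
    (α : Fin (g + 1) → k) (hα : ∀ i, IsIntegral ℤ (α i)) (j : Fin (g + 1)) :
    xi α j ∈ integralPart (FunField α) := by
  unfold integralPart
  rw [Submodule.mem_iInf]
  intro v
  rw [LinearMap.mem_ker]
  have h := hInteg k (FunField α) (cst α) g α (fx α) (fy α) hα (fun i => (hGen k g α).2.1 _)
    (hGen k g α).1 v j (Units.mk0 _ (fy_ne hGen α)) (Units.mk0 _ (fx_sub_ne hGen α (α j))) rfl rfl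
  have h2 := tameQ_eq_zero v _ _ h
  rw [← symb_coe] at h2
  exact h2

/-! ## One loop -/

/-- what we need to know about the loop around `a_l` -/
theorem loop_exists (hPhi : Stmt_Phi) (hTr : Stmt_Transc) (hFLoop : Stmt_FLoop)
    (hRegMap : Stmt_RegMap) (hEst : Stmt_Est) (hGen : Stmt_Gen)
    {k : Type} [Field k] [NumberField k] {g : ℕ}
    (α : Fin (g + 1) → k) (σ : k →+* ℂ) (r m : ℝ) (hr : Transcendental ℚ r) (hm : 2 < m)
    (hS : Sys (fun i => σ (α i)) r m) (l : Fin (g + 1)) :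
    ∃ (γ : Loop (FunField α)) (R : K2Q (FunField α) →ₗ[ℚ] ℝ),
      (∀ θ c, γ.ev θ (cst α c) = σ c) ∧
      ((∀ c, (σ c).im = 0) → ∀ θ f, γ.ev (-θ) f = (starRingEnd ℂ) (γ.ev θ f)) ∧
      (∀ a b, R (usymb a b) = regz (fun θ => γ.ev θ a) (fun θ => γ.ev θ b)) ∧
      (∀ j, j ≠ l → |R (xi α j) + Real.log ‖σ (α l) - σ (α j)‖| ≤
        dl m + dl m ^ 2 / (1 - dl m) / 2) ∧
      ∑ j, R (xi α j) = 0 := by
  set a : Fin (g + 1) → ℂ := fun i => σ (α i) with ha
  set X : ℝ → ℂ := circ (a l) r with hX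
  set P : ℝ → ℂ := fun θ => ∏ i, (X θ - a i) with hP
  have hXs : ContDiff ℝ 1 X := by
    rw [hX]; unfold circ
    exact contDiff_const.add (contDiff_const.mul
      ((Complex.ofRealCLM.contDiff.mul contDiff_const).cexp))
  have hXp : ∀ θ, X (θ + 2 * Real.pi) = X θ := by
    intro θ
    rw [hX]; unfold circ
    congr 2
    push_cast
    rw [add_mul, Complex.exp_add, Complex.exp_two_pi_mul_I, mul_one]
  have hXc : ∀ θ, ‖X θ - a l‖ = r := by
    intro θ
    rw [hX]; unfold circ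
    rw [add_sub_cancel_left, norm_mul, Complex.norm_exp_ofReal_mul_I, mul_one, Complex.norm_real,
      Real.norm_of_nonneg hS.pos.le]
  have hPs : ContDiff ℝ 1 P := contDiff_prod fun i _ => hXs.sub contDiff_const
  have hPp : ∀ θ, P (θ + 2 * Real.pi) = P θ := by
    intro θ; simp only [hP, hXp]
  have hPm : ∀ θ, m ≤ ‖P θ‖ := fun θ => hS.big l (X θ) (hXc θ)
  obtain ⟨φ, hφs, hφp, hφ1, hφe, hφc⟩ := hPhi P m hm hPs hPp hPm
  obtain ⟨γ, hγc, hγx, hγy, hγs⟩ := hFLoop k g α σ X (fun θ => P θ * φ θ) hXs (hPs.mul hφs) hXp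
    (fun θ => by simp only [hPp, hφp]) hφe
    (fun θ p hp => hTr.2 k σ (α l) r θ hS.pos hr p hp)
  obtain ⟨R, hR⟩ := hRegMap (FunField α) γ
  have hdl0 : 0 ≤ dl m := (norm_nonneg _).trans (hφ1 0)
  have hdl1 : dl m < 1 := by
    unfold dl
    have : 0 ≤ √(1 - 4 / m ^ 2) := Real.sqrt_nonneg _
    linarith
  have hE := hEst g a r (dl m) l φ hS.pos hS.sep hφs hφp hdl0 hdl1 hφ1 hφe
  have hRx : ∀ j, R (xi α j) = regz (fun θ => (∏ i, (circ (a l) r θ - a i)) * φ θ)
      (fun θ => circ (a l) r θ - a j) := by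
    intro j
    have e : xi α j = usymb (Units.mk0 _ (fy_ne hGen α))
        (Units.mk0 _ (fx_sub_ne hGen α (α j))) := by
      rw [← symb_coe]; rfl
    rw [e, hR]
    congr 1
    · funext θ
      show γ.ev θ (fy α) = _
      rw [hγy]
    · funext θ
      show γ.ev θ (fx α - cst α (α j)) = _
      rw [map_sub, hγx, hγc]
  refine ⟨γ, R, hγc, ?_, hR, ?_, ?_⟩
  · intro hσ
    have hX' : ∀ θ, X (-θ) = (starRingEnd ℂ) (X θ) := by
      intro θ
      have hal : (starRingEnd ℂ) (a l) = a l := Complex.conj_eq_iff_im.2 (hσ _)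
      rw [hX]; unfold circ
      rw [map_add, map_mul, hal, Complex.conj_ofReal, ← Complex.exp_conj, map_mul,
        Complex.conj_ofReal, Complex.conj_I]
      push_cast
      ring_nf
    have hP' : ∀ θ, P (-θ) = (starRingEnd ℂ) (P θ) := by
      intro θ
      simp only [hP, map_prod, map_sub, hX']
      refine Finset.prod_congr rfl fun i _ => ?_
      rw [show (starRingEnd ℂ) (a i) = a i from Complex.conj_eq_iff_im.2 (hσ _)]
    refine hγs hσ hX' ?_
    intro θ
    rw [map_mul, hP', hφc hP']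
  · intro j hj
    rw [hRx]
    exact hE.1 j hj
  · rw [Finset.sum_congr rfl fun j _ => hRx j]
    exact hE.2

/-- the error bound -/
def bd (m : ℝ) : ℝ := dl m + dl m ^ 2 / (1 - dl m) / 2

theorem concl (hInteg : Stmt_Integ) (hOpen : Stmt_Open) (hSqf : Stmt_Sqf)
    (hPhi : Stmt_Phi) (hTr : Stmt_Transc) (hFLoop : Stmt_FLoop)
    (hRegMap : Stmt_RegMap) (hEst : Stmt_Est) (hGen : Stmt_Gen) (hMaxP : Stmt_MaxP)
    (hRows : Stmt_Rows)
    {k : Type} [Field k] [NumberField k] {g : ℕ}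
    (α : Fin (g + 1) → k) (hα : ∀ i, IsIntegral ℤ (α i)) (σ : k →+* ℂ) (r m : ℝ)
    (hr : Transcendental ℚ r) (hm : 2 < m)
    (hS : Sys (fun i => σ (α i)) r m)
    (near : Fin (g + 1) → Fin (g + 1) → Prop) (ε ω : ℝ) (hε : 0 ≤ ε) (hεω : 4 * ε < ω)
    (hsymm : ∀ i j, near i j → near j i)
    (hcard : ∀ l, Set.ncard {i | i ≠ l ∧ near l i} ≤ 2)
    (hthird : ∀ l m, l ≠ m → near l m → ∃ i, i ≠ l ∧ i ≠ m ∧ ¬ near l i ∧ ¬ near m i)
    (h1 : ∀ l i, i ≠ l → near l i → bd m - Real.log ‖σ (α l) - σ (α i)‖ ≤ ε)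
    (h2 : ∀ l i, i ≠ l → ¬ near l i → bd m - Real.log ‖σ (α l) - σ (α i)‖ ≤ -ω) :
    Conclusion α σ := by
  have hsq := hSqf k g α σ (fun c hc => hOpen (g + 1) (fun i => σ (α i)) r hS.pos hS.sep
    (fun l x hx => hm.trans_le (hS.big l x hx)) c hc)
  have hL := fun l => loop_exists hPhi hTr hFLoop hRegMap hEst hGen α σ r m hr hm hS l
  choose γ R hγc hγs hR hRe hR0 using hL
  have hker : ∀ v : Fin g → ℝ, (∀ l, ∑ j, R l (xi α j.succ) * v j = 0) → v = 0 := by
    intro v hv
    have hM := hMaxP (g + 1) (fun l j => R l (xi α j)) near ε ω hε hεω hsymm hcard hthird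
      (fun l i hi hn => by
        have e1 := (abs_le.1 (hRe l i hi)).2
        have e2 := h1 l i hi hn
        unfold bd at e2
        linarith)
      (fun l i hi hn => by
        have e1 := (abs_le.1 (hRe l i hi)).2
        have e2 := h2 l i hi hn
        unfold bd at e2
        linarith) hR0 (Fin.cons 0 v) (fun l => by
        rw [Fin.sum_univ_succ]
        simp only [Fin.cons_zero, mul_zero, zero_add, Fin.cons_succ]
        exact hv l)
    funext j
    have := hM j.succ 0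
    simpa using this
  obtain ⟨s, hs⟩ := hRows (g + 1) g (fun l j => R l (xi α j.succ)) hker
  refine ⟨hsq.1, hsq.2, xi_mem hInteg hGen α hα, ?_, fun l => γ (s l), fun l => R (s l),
    fun l => hγc (s l), fun hσ l => hγs (s l) hσ, fun l => hR (s l), hs⟩
  rw [Fintype.linearIndependent_iff]
  intro q hq
  have hv : (fun j => (q j : ℝ)) = 0 := by
    apply hker
    intro l
    have := congrArg (R l) hq
    rw [map_sum, map_zero] at this
    rw [← this]
    refine Finset.sum_congr rfl fun j _ => ?_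
    rw [map_smul, Rat.smul_def, mul_comm]
  intro j
  have := congrFun hv j
  simpa using this

/-! ## Numerical facts -/

theorem bd_le {m d : ℝ} (hd : dl m ≤ d) (h0 : 0 ≤ dl m) (hd1 : d < 1) :
    bd m ≤ d + d ^ 2 / (1 - d) / 2 := by
  unfold bd
  have h1 : dl m ^ 2 / (1 - dl m) ≤ d ^ 2 / (1 - d) := by
    apply div_le_div₀ (by positivity) (pow_le_pow_left₀ h0 hd 2) (by linarith) (by linarith)
  linarith

theorem dl_le {m s : ℝ} (h : s ^ 2 ≤ 1 - 4 / m ^ 2) : dl m ≤ (1 - s) / 2 := by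
  unfold dl
  have : s ≤ √(1 - 4 / m ^ 2) := Real.le_sqrt_of_sq_le h
  linarith

theorem dl_nonneg {m : ℝ} : 0 ≤ dl m := by
  unfold dl
  have : √(1 - 4 / m ^ 2) ≤ 1 := by
    rw [Real.sqrt_le_one]
    have : 0 ≤ 4 / m ^ 2 := by positivity
    linarith
  linarith

theorem bdA : bd (11 / 5) ≤ 36 / 100 := by
  refine (bd_le (d := 292 / 1000) ((dl_le (s := 416 / 1000) (by norm_num)).trans (by norm_num))
    dl_nonneg (by norm_num)).trans (by norm_num)

theorem bdB : bd (29 / 10) ≤ 15 / 100 := by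
  refine (bd_le (d := 138 / 1000) ((dl_le (s := 724 / 1000) (by norm_num)).trans (by norm_num))
    dl_nonneg (by norm_num)).trans (by norm_num)

theorem bdC : bd (17 / 5) ≤ 102 / 1000 := by
  refine (bd_le (d := 96 / 1000) ((dl_le (s := 808 / 1000) (by norm_num)).trans (by norm_num))
    dl_nonneg (by norm_num)).trans (by norm_num)

theorem log3 : (1 : ℝ) ≤ Real.log 3 := by
  rw [Real.le_log_iff_exp_le (by norm_num)]
  have := Real.exp_one_lt_d9
  linarith

theorem log_ge {x y c : ℝ} (h : c ≤ Real.log x) (h0 : 0 < x) (h1 : x ≤ y) : c ≤ Real.log y :=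
  h.trans (Real.log_le_log h0 h1)

/-- real configurations -/
theorem sys_real (hRealC : Stmt_RealC) {g : ℕ} (a : Fin (g + 1) → ℂ) (him : ∀ i, (a i).im = 0)
    (r m : ℝ) (hr : 0 < r) (hm : 0 < m) (hsep : ∀ i j, i ≠ j → 2 * r ≤ ‖a i - a j‖)
    (h : ∀ b : Fin (g + 1) → ℝ, (∀ i j, ‖a i - a j‖ = |b i - b j|) →
      ∀ l, m ≤ |∏ i, (b l + r - b i)|) : Sys a r m := by
  refine ⟨hr, hsep, ?_⟩
  intro l x hx
  have ha : ∀ i, a i = (((a i).re : ℝ) : ℂ) := fun i => by
    apply Complex.ext <;> simp [him]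
  have hn : ∀ i j, ‖a i - a j‖ = |(a i).re - (a j).re| := by
    intro i j
    rw [ha i, ha j, ← Complex.ofReal_sub, Complex.norm_real, Real.norm_eq_abs]
    simp
  have h1 := h (fun i => (a i).re) hn l
  have h2 := h (fun i => -(a i).re) (fun i j => by
    rw [hn, ← abs_neg]; congr 1; ring) l
  have h3 : m ≤ |∏ i, ((a l).re - r - (a i).re)| := by
    refine h2.trans (le_of_eq ?_)
    rw [Finset.abs_prod, Finset.abs_prod]
    refine Finset.prod_congr rfl fun i _ => ?_
    rw [← abs_neg]; congr 1; ring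
  have h4 := hRealC (g + 1) (fun i => (a i).re) l r m hr hm h1 h3 x (by rw [← ha]; exact hx)
  simp only [← ha] at h4
  exact h4

end All

open All in
theorem main (hInteg : Stmt_Integ) (hOpen : Stmt_Open) (hSqf : Stmt_Sqf)
    (hGeoA : Stmt_GeoA) (hRealC : Stmt_RealC) (hGeoB : Stmt_GeoB) (hGeoC : Stmt_GeoC)
    (hNear : Stmt_Near)
    (hPhi : Stmt_Phi) (hTr : Stmt_Transc) (hFLoop : Stmt_FLoop)
    (hRegMap : Stmt_RegMap) (hEst : Stmt_Est) (hGen : Stmt_Gen) (hMaxP : Stmt_MaxP)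
    (hRows : Stmt_Rows)
    {k : Type} [Field k] [NumberField k] {g : ℕ}
    (α : Fin (g + 1) → k) (hα : ∀ i, IsIntegral ℤ (α i)) (σ : k →+* ℂ)
    (hsep : Separated fun i => σ (α i)) : Conclusion α σ := by
  rcases hsep with ⟨hg, h⟩ | ⟨hg, him, h⟩ | ⟨hg, him, h⟩
  · obtain ⟨r, hr1, hr2, hrt⟩ := hTr.1 (7 / 5) (3 / 2) (by norm_num)
    refine concl hInteg hOpen hSqf hPhi hTr hFLoop hRegMap hEst hGen hMaxP hRows α hα σ r
      (11 / 5) hrt (by norm_num) (hGeoA g _ hg h r hr1 hr2) (fun _ _ => False) 0 (1 / 2) le_rfl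
      (by norm_num) (fun _ _ h => h) (fun l => by simp) (fun _ _ _ h => h.elim)
      (fun _ _ _ h => h.elim) ?_
    intro l i hi _
    have h1 := log_ge log3 (by norm_num) (h l i hi.symm)
    have h2 := bdA
    linarith
  · obtain ⟨r, hr1, hr2, hrt⟩ := hTr.1 (19 / 20) 1 (by norm_num)
    refine concl hInteg hOpen hSqf hPhi hTr hFLoop hRegMap hEst hGen hMaxP hRows α hα σ r
      (29 / 10) hrt (by norm_num) (sys_real hRealC _ him r _ (by linarith) (by norm_num)
        (fun i j hij => by linarith [h i j hij]) (fun b hb => ?_)) (fun _ _ => False) 0 (1 / 2)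
      le_rfl (by norm_num) (fun _ _ h => h) (fun l => by simp) (fun _ _ _ h => h.elim)
      (fun _ _ _ h => h.elim) ?_
    · exact hGeoB (g + 1) b (by omega) (fun i j hij => by rw [← hb]; exact h i j hij) r hr1 hr2
    · intro l i hi _
      have h0 : (69 / 100 : ℝ) ≤ Real.log 2 := by linarith [Real.log_two_gt_d9]
      have h1 := log_ge h0 (by norm_num) (h l i hi.symm)
      have h2 := bdB
      linarith
  · obtain ⟨r, hr1, hr2, hrt⟩ := hTr.1 (9 / 20) (1 / 2) (by norm_num)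
    have hnr : ∀ i j : Fin (g + 1), ‖σ (α i) - σ (α j)‖ = |(σ (α i)).re - (σ (α j)).re| := by
      intro i j
      have ha : ∀ i, σ (α i) = (((σ (α i)).re : ℝ) : ℂ) := fun i => by
        apply Complex.ext <;> simp [him]
      rw [ha i, ha j, ← Complex.ofReal_sub, Complex.norm_real, Real.norm_eq_abs]
      simp
    have hN := hNear (g + 1) (fun i => (σ (α i)).re) (fun i j hij => by
      rw [← hnr]; exact h i j hij)
    set S : Fin (g + 1) → Finset (Fin (g + 1)) := fun l =>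
      Finset.univ.filter fun i => i ≠ l ∧ |(σ (α l)).re - (σ (α i)).re| < 2 with hSdef
    have hmem : ∀ l i, i ∈ S l ↔ i ≠ l ∧ ‖σ (α l) - σ (α i)‖ < 2 := by
      intro l i
      rw [hnr]
      simp [hSdef]
    refine concl hInteg hOpen hSqf hPhi hTr hFLoop hRegMap hEst hGen hMaxP hRows α hα σ r
      (17 / 5) hrt (by norm_num) (sys_real hRealC _ him r _ (by linarith) (by norm_num)
        (fun i j hij => by linarith [h i j hij]) (fun b hb => ?_))
      (fun l i => ‖σ (α l) - σ (α i)‖ < 2) (102 / 1000) (59 / 100)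
      (by norm_num) (by norm_num) (fun i j h => by rw [norm_sub_rev]; exact h) ?_ ?_ ?_ ?_
    · exact hGeoC (g + 1) b (by omega) (fun i j hij => by rw [← hb]; exact h i j hij) r hr1 hr2
    · intro l
      have : {i | i ≠ l ∧ ‖σ (α l) - σ (α i)‖ < 2} = (S l : Set (Fin (g + 1))) := by
        ext i
        rw [Finset.mem_coe, hmem]
        rfl
      rw [this, Set.ncard_coe_finset]
      exact hN l
    · intro l m hlm hn
      have hc : (S l ∪ S m).card ≤ 4 := (Finset.card_union_le _ _).trans (by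
        have e1 : (S l).card ≤ 2 := hN l
        have e2 : (S m).card ≤ 2 := hN m
        omega)
      obtain ⟨i, hi⟩ : ∃ i, i ∉ S l ∪ S m := by
        by_contra hcon
        push Not at hcon
        have : Finset.univ ⊆ S l ∪ S m := fun i _ => hcon i
        have := Finset.card_le_card this
        rw [Finset.card_univ, Fintype.card_fin] at this
        omega
      rw [Finset.mem_union, not_or] at hi
      have hil : i ≠ l := by
        rintro rfl
        exact hi.2 ((hmem _ _).2 ⟨hlm, by rw [norm_sub_rev]; exact hn⟩)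
      have him' : i ≠ m := by
        rintro rfl
        exact hi.1 ((hmem _ _).2 ⟨hlm.symm, hn⟩)
      exact ⟨i, hil, him', fun hc => hi.1 ((hmem _ _).2 ⟨hil, hc⟩),
        fun hc => hi.2 ((hmem _ _).2 ⟨him', hc⟩)⟩
    · intro l i hi _
      have h1 : (0 : ℝ) ≤ Real.log ‖σ (α l) - σ (α i)‖ := Real.log_nonneg (h l i hi.symm)
      have h2 := bdC
      linarith
    · intro l i hi hf
      have h0 : (693 / 1000 : ℝ) ≤ Real.log 2 := by linarith [Real.log_two_gt_d9]
      have h1 := log_ge h0 (by norm_num) (not_lt.1 hf)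
      have h2 := bdC
      linarith

end

end Pool.Agent.K2B
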