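import Pool.Agent.BEK.TAME

/-!
# `K₂` of the hyperelliptic curves `y + 1/y = ∏ (x - α_i)` : definitions

We use the definitions of `Pool.Agent.BEK.Defs`: `K2Q F` is `K₂(F) ⊗ ℚ` (Milnor's `K₂`,
written additively), `DV F` the type of normalised discrete valuations of `F`, `v.tame` the tame
symbol (with values in the multiplicative group `v.Res` of the residue field), `Loop F` the type
of closed paths of generic points and `regz` the regulator integral
`(1/2π) ∮ (log|f| d arg g - log|g| d arg f)`.
-/

set_option autoImplicit false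

open scoped TensorProduct
open Polynomial

namespace Pool.Agent.K2B

open Pool.Agent.BEK

noncomputable section

/-! ## Symbols, and linear maps out of `K₂(F) ⊗ ℚ` -/

section symbols

variable {F : Type} [Field F]

/-- The symbol `{a, b}` of two units. -/
def usymb (a b : Fˣ) : K2Q F :=
  (1 : ℚ) ⊗ₜ[ℤ] (QuotientAddGroup.mk (Additive.ofMul a ⊗ₜ[ℤ] Additive.ofMul b) : K2 F)

open Classical in
/-- The symbol `{a, b}` of two nonzero elements `a, b` of `F` (`0` if `a = 0` or `b = 0`). -/
def symb (a b : F) : K2Q F :=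
  if h : a ≠ 0 ∧ b ≠ 0 then usymb (Units.mk0 a h.1) (Units.mk0 b h.2) else 0

theorem symb_coe (a b : Fˣ) : symb (a : F) (b : F) = usymb a b := by
  unfold symb
  rw [dif_pos ⟨a.ne_zero, b.ne_zero⟩]
  congr 1 <;> exact Units.ext rfl

/-- The bilinear map `Fˣ ⊗ Fˣ → A` attached to a map `t : Fˣ × Fˣ → A` that is additive in both
variables. -/
def biadd {A : Type} [AddCommGroup A] (t : Fˣ → Fˣ → A)
    (h1 : ∀ a a' b, t (a * a') b = t a b + t a' b)
    (h2 : ∀ a b b', t a (b * b') = t a b + t a b') :
    Additive Fˣ ⊗[ℤ] Additive Fˣ →+ A :=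
  (TensorProduct.lift
    (AddMonoidHom.toIntLinearMap
      { toFun := fun a => AddMonoidHom.toIntLinearMap
          { toFun := fun b => t a.toMul b.toMul
            map_zero' := by
              have := h2 a.toMul 1 1
              rw [mul_one] at this
              exact left_eq_add.1 this
            map_add' := fun b b' => h2 a.toMul b.toMul b'.toMul }
        map_zero' := by
          ext b
          have := h1 1 1 b.toMul
          rw [mul_one] at this
          exact left_eq_add.1 this
        map_add' := fun a a' => by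
          ext b
          exact h1 a.toMul a'.toMul b.toMul })).toAddMonoidHom

theorem biadd_tmul {A : Type} [AddCommGroup A] (t : Fˣ → Fˣ → A)
    (h1 : ∀ a a' b, t (a * a') b = t a b + t a' b)
    (h2 : ∀ a b b', t a (b * b') = t a b + t a b') (a b : Fˣ) :
    biadd t h1 h2 (Additive.ofMul a ⊗ₜ[ℤ] Additive.ofMul b) = t a b := rfl

/-- The linear map out of `K₂(F) ⊗ ℚ` attached to a map `t` of `Fˣ × Fˣ` to a `ℚ`-vector space
that is additive in both variables and satisfies the Steinberg relation. -/
def liftK {A : Type} [AddCommGroup A] [Module ℚ A] (t : Fˣ → Fˣ → A)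
    (h1 : ∀ a a' b, t (a * a') b = t a b + t a' b)
    (h2 : ∀ a b b', t a (b * b') = t a b + t a b')
    (h3 : ∀ a b : Fˣ, (a : F) + b = 1 → t a b = 0) : K2Q F →ₗ[ℚ] A :=
  LinearMap.liftBaseChange ℚ
    (QuotientAddGroup.lift (steinberg F) (biadd t h1 h2) (by
      intro z hz
      have : steinberg F ≤ (biadd t h1 h2).ker := by
        refine (AddSubgroup.closure_le _).2 ?_
        rintro _ ⟨u, v, huv, rfl⟩
        exact h3 u v huv
      exact this hz)).toIntLinearMap

theorem liftK_usymb {A : Type} [AddCommGroup A] [Module ℚ A] (t : Fˣ → Fˣ → A)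
    (h1 : ∀ a a' b, t (a * a') b = t a b + t a' b)
    (h2 : ∀ a b b', t a (b * b') = t a b + t a b')
    (h3 : ∀ a b : Fˣ, (a : F) + b = 1 → t a b = 0) (a b : Fˣ) :
    liftK t h1 h2 h3 (usymb a b) = t a b := by
  unfold liftK usymb
  rw [LinearMap.liftBaseChange_tmul, one_smul]
  rfl

/-! ## The integral part of `K₂` -/

instance (v : DV F) : CommGroup v.Res := QuotientGroup.Quotient.commGroup (v.U1.subgroupOf v.U)

/-- The tame symbol at the discrete valuation `v` of `F`, as a linear map
`K₂(F) ⊗ ℚ → κ(v)ˣ ⊗ ℚ`. -/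
def tameQ (v : DV F) : K2Q F →ₗ[ℚ] ℚ ⊗[ℤ] Additive v.Res :=
  liftK (fun a b => (1 : ℚ) ⊗ₜ[ℤ] Additive.ofMul (v.tame a b))
    (fun a a' b => by rw [v.tame_mul_left, ofMul_mul, TensorProduct.tmul_add])
    (fun a b b' => by rw [v.tame_mul_right, ofMul_mul, TensorProduct.tmul_add])
    (fun a b h => by rw [tame_proof F v a b h, ofMul_one, TensorProduct.tmul_zero])

theorem tameQ_usymb (v : DV F) (a b : Fˣ) :
    tameQ v (usymb a b) = (1 : ℚ) ⊗ₜ[ℤ] Additive.ofMul (v.tame a b) :=
  liftK_usymb _ _ _ _ a b

end symbols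

/-- The elements of `K₂(F) ⊗ ℚ` whose tame symbol (with values in `κ(v)ˣ ⊗ ℚ`) is trivial at
EVERY discrete valuation `v` of `F`. -/
def integralPart (F : Type) [Field F] : Submodule ℚ (K2Q F) :=
  ⨅ v : DV F, LinearMap.ker (tameQ v)

/-! ## The curves -/

section curve

variable {k : Type} [Field k] {g : ℕ} (α : Fin (g + 1) → k)

/-- The polynomial `P = ∏ (x - α_i)` of degree `g + 1`. -/
def poly : k[X] := ∏ i, (X - C (α i))

theorem poly_monic : (poly α).Monic := monic_prod_X_sub_C _ _

theorem poly_natDegree : (poly α).natDegree = g + 1 := by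
  unfold poly
  rw [natDegree_prod_of_monic _ _ fun i _ => monic_X_sub_C _]
  simp

/-- The equation `y² - P(x) y + 1 = 0`, that is `y + 1/y = P(x)`. -/
def curvePoly : k[X][X] := X ^ 2 - C (poly α) * X + 1

theorem curvePoly_monic : (curvePoly α).Monic := by
  unfold curvePoly
  monicity!

theorem curvePoly_natDegree : (curvePoly α).natDegree = 2 := by
  unfold curvePoly
  compute_degree!

theorem curvePoly_irreducible : Irreducible (curvePoly α) := by
  rw [(curvePoly_monic α).irreducible_iff_roots_eq_zero_of_degree_le_three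
    (curvePoly_natDegree α).ge (by rw [curvePoly_natDegree]; norm_num)]
  rw [Multiset.eq_zero_iff_forall_notMem]
  intro f hf
  rw [mem_roots (curvePoly_monic α).ne_zero, IsRoot.def] at hf
  simp only [curvePoly, eval_add, eval_sub, eval_pow, eval_X, eval_mul, eval_C, eval_one] at hf
  have h1 : f * (poly α - f) = 1 := by linear_combination -hf
  have h2 : IsUnit f := IsUnit.of_mul_eq_one _ h1
  have h3 : IsUnit (poly α - f) := IsUnit.of_mul_eq_one f (by rw [mul_comm]; exact h1)
  have h4 := natDegree_eq_zero_of_isUnit h2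
  have h5 := natDegree_eq_zero_of_isUnit h3
  have h6 : (poly α).natDegree ≤ 0 := by
    have : poly α = (poly α - f) + f := by ring
    rw [this]
    refine (natDegree_add_le _ _).trans ?_
    rw [h4, h5, max_self]
  rw [poly_natDegree] at h6
  omega

/-- The coordinate ring `k[x, y] / (y² - P(x) y + 1)`. -/
abbrev CoordRing : Type := AdjoinRoot (curvePoly α)

instance : IsDomain (CoordRing α) :=
  AdjoinRoot.isDomain_of_prime (curvePoly_irreducible α).prime

/-- The function field of the curve `y + 1/y = P(x)`. -/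
abbrev FunField : Type := FractionRing (CoordRing α)

/-- The constants. -/
def cst : k →+* FunField α :=
  (algebraMap (CoordRing α) (FunField α)).comp ((AdjoinRoot.of (curvePoly α)).comp C)

/-- The function `x`. -/
def fx : FunField α := algebraMap (CoordRing α) (FunField α) (AdjoinRoot.of (curvePoly α) X)

/-- The function `y`. -/
def fy : FunField α := algebraMap (CoordRing α) (FunField α) (AdjoinRoot.root (curvePoly α))

/-- The element `ξ_j = {y, x - α_j}` of `K₂(F) ⊗ ℚ`. -/
def xi (j : Fin (g + 1)) : K2Q (FunField α) := symb (fy α) (fx α - cst α (α j))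

end curve

/-- The points `a_0, …, a_g` of the plane are separated: either their mutual distances are at
least `3` (`g ≥ 1`), or they are real with mutual distances at least `2` (`g ≥ 2`), or they are
real with mutual distances at least `1` (`g ≥ 5`). -/
def Separated {g : ℕ} (a : Fin (g + 1) → ℂ) : Prop :=
  (1 ≤ g ∧ ∀ i j, i ≠ j → 3 ≤ ‖a i - a j‖) ∨
  (2 ≤ g ∧ (∀ i, (a i).im = 0) ∧ ∀ i j, i ≠ j → 2 ≤ ‖a i - a j‖) ∨
  (5 ≤ g ∧ (∀ i, (a i).im = 0) ∧ ∀ i j, i ≠ j → 1 ≤ ‖a i - a j‖)

/-- The conclusions for one curve `y + 1/y = ∏ (x - α_i)` over the field `k` with embedding `σ`. -/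
structure Conclusion {k : Type} [Field k] {g : ℕ} (α : Fin (g + 1) → k) (σ : k →+* ℂ) : Prop where
  /-- `P² - 4` is squarefree of degree `2 g + 2`: the curve `s² = P² - 4` (`s = y - 1/y`) has
  genus `g`. -/
  squarefree : Squarefree (poly α ^ 2 - 4)
  degree : (poly α ^ 2 - 4).natDegree = 2 * g + 2
  /-- The elements `{y, x - α_j}` lie in the integral part. -/
  integral : ∀ j, xi α j ∈ integralPart (FunField α)
  /-- The elements `{y, x - α_j}`, `j = 1, …, g`, are linearly independent. -/
  independent : LinearIndependent ℚ fun j : Fin g => xi α j.succ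
  /-- There are `g` loops of points of the curve over `ℂ` obtained from `σ` with nonzero
  regulator determinant; if `σ` is real, then complex conjugation reverses these loops. -/
  regulator : ∃ (γ : Fin g → Loop (FunField α)) (R : Fin g → (K2Q (FunField α) →ₗ[ℚ] ℝ)),
    (∀ l θ c, (γ l).ev θ (cst α c) = σ c) ∧
    ((∀ c, (σ c).im = 0) → ∀ l θ f, (γ l).ev (-θ) f = (starRingEnd ℂ) ((γ l).ev θ f)) ∧
    (∀ l a b, R l (usymb a b) = regz (fun θ => (γ l).ev θ a) (fun θ => (γ l).ev θ b)) ∧
    (Matrix.of fun l j : Fin g => R l (xi α j.succ)).det ≠ 0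

end

end Pool.Agent.K2B
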