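import Pool.Agent.K2B.Stmts

/-!
# Module EST
-/

set_option autoImplicit false

namespace Pool.Agent.K2B

open Pool.Agent.BEK

noncomputable section

namespace EstX

theorem nz_one : Nz (fun _ : ℝ => (1 : ℂ)) :=
  ⟨contDiff_const, fun _ => rfl, fun _ => one_ne_zero⟩

theorem nz_mul {f g : ℝ → ℂ} (hf : Nz f) (hg : Nz g) : Nz (fun θ => f θ * g θ) :=
  ⟨hf.smooth.mul hg.smooth, fun θ => by simp only [hf.periodic, hg.periodic],
    fun θ => mul_ne_zero (hf.ne θ) (hg.ne θ)⟩

theorem nz_prod {ι : Type} (s : Finset ι) (f : ι → ℝ → ℂ) (hf : ∀ i ∈ s, Nz (f i)) :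
    Nz (fun θ => ∏ i ∈ s, f i θ) := by
  classical
  induction s using Finset.induction_on with
  | empty => simpa using nz_one
  | insert a s ha ih =>
    simp only [Finset.prod_insert ha]
    exact nz_mul (hf a (Finset.mem_insert_self a s))
      (ih fun i hi => hf i (Finset.mem_insert_of_mem hi))

theorem regz_prod_left (hReg : Stmt_Reg) {ι : Type} (s : Finset ι) (f : ι → ℝ → ℂ)
    (hf : ∀ i ∈ s, Nz (f i)) (g : ℝ → ℂ) (hg : Nz g) :
    regz (fun θ => ∏ i ∈ s, f i θ) g = ∑ i ∈ s, regz (f i) g := by
  classical
  induction s using Finset.induction_on with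
  | empty =>
    simp only [Finset.prod_empty, Finset.sum_empty]
    rw [hReg.2.2.2.1, norm_one, Real.log_one, zero_mul]
  | insert a s ha ih =>
    simp only [Finset.prod_insert ha]
    rw [Finset.sum_insert ha, ← ih fun i hi => hf i (Finset.mem_insert_of_mem hi)]
    exact hReg.1 _ _ _ (hf a (Finset.mem_insert_self a s))
      (nz_prod s f fun i hi => hf i (Finset.mem_insert_of_mem hi)) hg

end EstX

open EstX in
theorem est_proof (hReg : Stmt_Reg) (hWind : Stmt_Wind) (hLin : Stmt_Lin)
    (hPertB : Stmt_PertB) (hSelf : Stmt_Self) : Stmt_Est := by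
  intro g a r δ l φ hr hsep hφs hφp hδ0 hδ1 hφ hY
  have hfar : ∀ i, i ≠ l → r < ‖a l - a i‖ := fun i hi => by
    have := hsep l i (Ne.symm hi)
    linarith
  have hnz : ∀ i, Nz (fun θ => circ (a l) r θ - a i) := fun i => by
    by_cases hi : i = l
    · subst hi
      exact (hWind (a i) r hr).1
    · exact ((hWind (a l) r hr).2.2 (a i) (hfar i hi)).1
  have hnzP : Nz (fun θ => ∏ i, (circ (a l) r θ - a i)) :=
    nz_prod Finset.univ (fun i θ => circ (a l) r θ - a i) fun i _ => hnz i
  have hnzφ : Nz φ := ⟨hφs, hφp, fun θ h0 => by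
    have := hφ θ
    rw [h0, zero_sub, norm_neg, norm_one] at this
    linarith⟩
  have hnzY : Nz (fun θ => (∏ i, (circ (a l) r θ - a i)) * φ θ) := nz_mul hnzP hnzφ
  constructor
  · intro j hj
    have h1 : regz (fun θ => (∏ i, (circ (a l) r θ - a i)) * φ θ)
        (fun θ => circ (a l) r θ - a j) =
        regz (fun θ => ∏ i, (circ (a l) r θ - a i)) (fun θ => circ (a l) r θ - a j) +
          regz φ (fun θ => circ (a l) r θ - a j) := hReg.1 _ _ _ hnzP hnzφ (hnz j)
    have h2 : regz (fun θ => ∏ i, (circ (a l) r θ - a i)) (fun θ => circ (a l) r θ - a j) =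
        ∑ i, regz (fun θ => circ (a l) r θ - a i) (fun θ => circ (a l) r θ - a j) :=
      regz_prod_left hReg Finset.univ (fun i θ => circ (a l) r θ - a i) (fun i _ => hnz i) _
        (hnz j)
    have h3 : ∑ i, regz (fun θ => circ (a l) r θ - a i) (fun θ => circ (a l) r θ - a j) =
        - Real.log ‖a l - a j‖ := by
      rw [Finset.sum_eq_single l]
      · rw [hLin (fun θ => circ (a l) r θ) (a l) (a j) ?_ (hnz l) (hnz j),
          ((hWind (a l) r hr).2.2 (a j) (hfar j hj)).2, (hWind (a l) r hr).2.1]
        · ring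
        · intro h0
          have := hfar j hj
          rw [h0, sub_self, norm_zero] at this
          linarith
      · intro i _ hi
        by_cases hij : i = j
        · subst hij
          have := hReg.2.2.1 (fun θ => circ (a l) r θ - a i) (fun θ => circ (a l) r θ - a i)
          linarith
        · rw [hLin (fun θ => circ (a l) r θ) (a i) (a j) ?_ (hnz i) (hnz j),
            ((hWind (a l) r hr).2.2 (a j) (hfar j hj)).2,
            ((hWind (a l) r hr).2.2 (a i) (hfar i hi)).2]
          · ring
          · intro h0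
            have := hsep i j hij
            rw [h0, sub_self, norm_zero] at this
            linarith
      · intro h0
        exact absurd (Finset.mem_univ l) h0
    rw [h1, h2, h3]
    have h4 : -Real.log ‖a l - a j‖ + regz φ (fun θ => circ (a l) r θ - a j) +
        Real.log ‖a l - a j‖ = regz φ (fun θ => circ (a l) r θ - a j) := by ring
    rw [h4]
    have h5 := hPertB φ (fun θ => circ (a l) r θ - a j) δ 1 hnzφ (hnz j) hδ0 hδ1 hφ ?_
    · rwa [mul_one] at h5
    · intro θ
      have hd : deriv (fun θ : ℝ => circ (a l) r θ - a j) θ =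
          r * (Complex.exp (θ * Complex.I) * Complex.I) := by
        have h6 : HasDerivAt (fun θ : ℝ => (θ : ℂ) * Complex.I) Complex.I θ := by
          simpa using (Complex.ofRealCLM.hasDerivAt (x := θ)).mul_const Complex.I
        have h7 : HasDerivAt (fun θ : ℝ => circ (a l) r θ - a j)
            (r * (Complex.exp (θ * Complex.I) * Complex.I)) θ := by
          unfold circ
          exact ((h6.cexp.const_mul (r : ℂ)).const_add (a l)).sub_const (a j)
        exact h7.deriv
      rw [hd, norm_div, norm_mul, norm_mul, Complex.norm_I, mul_one,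
        Complex.norm_exp_ofReal_mul_I, mul_one, Complex.norm_real, Real.norm_of_nonneg hr.le]
      have h8 : r ≤ ‖circ (a l) r θ - a j‖ := by
        have h9 : a l - a j = (circ (a l) r θ - a j) - r * Complex.exp (θ * Complex.I) := by
          unfold circ
          ring
        have h10 : ‖a l - a j‖ ≤ ‖circ (a l) r θ - a j‖ + r := by
          rw [h9]
          refine (norm_sub_le _ _).trans ?_
          rw [norm_mul, Complex.norm_exp_ofReal_mul_I, mul_one, Complex.norm_real,
            Real.norm_of_nonneg hr.le]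
        have := hsep l j (Ne.symm hj)
        linarith
      exact div_le_one_of_le₀ h8 (norm_nonneg _)
  · have h1 := hSelf _ _ hnzY hnzP hY
    have h2 : regz (fun θ => (∏ i, (circ (a l) r θ - a i)) * φ θ)
        (fun θ => ∏ i, (circ (a l) r θ - a i)) =
        - ∑ j, regz (fun θ => circ (a l) r θ - a j)
          (fun θ => (∏ i, (circ (a l) r θ - a i)) * φ θ) := by
      rw [hReg.2.2.1 (fun θ => ∏ i, (circ (a l) r θ - a i)),
        regz_prod_left hReg Finset.univ (fun i θ => circ (a l) r θ - a i) (fun i _ => hnz i) _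
        hnzY]
    rw [h1] at h2
    have h3 : ∑ j, regz (fun θ => (∏ i, (circ (a l) r θ - a i)) * φ θ)
        (fun θ => circ (a l) r θ - a j) = - ∑ j, regz (fun θ => circ (a l) r θ - a j)
          (fun θ => (∏ i, (circ (a l) r θ - a i)) * φ θ) := by
      rw [← Finset.sum_neg_distrib]
      apply Finset.sum_congr rfl
      intro j _
      exact hReg.2.2.1 _ _
    rw [h3, ← h2]

end

end Pool.Agent.K2B
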