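import Pool.Agent.K2B.Stmts

/-!
# EVAL: points with transcendental coordinate are generic
-/

set_option autoImplicit false

open Polynomial

namespace Pool.Agent.K2B

open Pool.Agent.BEK

noncomputable section

namespace EvalX

variable {k : Type} [Field k] {g : ℕ} (α : Fin (g + 1) → k) (σ : k →+* ℂ) (X Y : ℂ)

theorem root_eq (h : Y ^ 2 - (∏ i, (X - σ (α i))) * Y + 1 = 0) :
    (curvePoly α).eval₂ (eval₂RingHom σ X) Y = 0 := by
  have hP : (poly α).eval₂ σ X = ∏ i, (X - σ (α i)) := by
    unfold poly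
    rw [← coe_eval₂RingHom, map_prod]
    refine Finset.prod_congr rfl fun i _ => ?_
    rw [map_sub, coe_eval₂RingHom, eval₂_X, eval₂_C]
  unfold curvePoly
  simp only [eval₂_sub, eval₂_add, eval₂_mul, eval₂_pow, eval₂_X, eval₂_C, eval₂_one,
    coe_eval₂RingHom, hP]
  exact h

/-- evaluation on the coordinate ring -/
def evr (h : Y ^ 2 - (∏ i, (X - σ (α i))) * Y + 1 = 0) : CoordRing α →+* ℂ :=
  AdjoinRoot.lift (eval₂RingHom σ X) Y (root_eq α σ X Y h)

end EvalX

theorem eval_proof : Stmt_Eval := by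
  intro k _ g α σ X Y h hX
  have hfin : Module.Finite k[X] (CoordRing α) := (curvePoly_monic α).finite_adjoinRoot
  have hint : Algebra.IsIntegral k[X] (CoordRing α) := inferInstance
  let e := EvalX.evr α σ X Y h
  have hC : ∀ p : k[X], e (AdjoinRoot.of (curvePoly α) p) = p.eval₂ σ X := by
    intro p
    show AdjoinRoot.lift (eval₂RingHom σ X) Y _ (AdjoinRoot.of _ p) = _
    rw [AdjoinRoot.lift_of]
    rfl
  have hY : e (AdjoinRoot.root (curvePoly α)) = Y := by
    show AdjoinRoot.lift (eval₂RingHom σ X) Y _ (AdjoinRoot.root _) = _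
    rw [AdjoinRoot.lift_root]
  have hinj : Function.Injective e := by
    rw [RingHom.injective_iff_ker_eq_bot]
    apply Ideal.eq_bot_of_comap_eq_bot (R := k[X])
    rw [eq_bot_iff]
    intro p hp
    rw [Ideal.mem_comap, RingHom.mem_ker] at hp
    by_contra hne
    apply hX p (by simpa using hne)
    rw [Polynomial.eval_map, ← hC]
    exact hp
  refine ⟨IsFractionRing.lift hinj, ?_, ?_, ?_⟩
  · intro c
    unfold cst
    rw [RingHom.comp_apply, RingHom.comp_apply, IsFractionRing.lift_algebraMap, hC, eval₂_C]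
  · unfold fx
    rw [IsFractionRing.lift_algebraMap, hC, eval₂_X]
  · unfold fy
    rw [IsFractionRing.lift_algebraMap, hY]

end

end Pool.Agent.K2B
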