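import Pool.Agent.BEK.KTwo
import Pool.Agent.K2B.All

/-!
# The final statement, in terms of `Pool.Agent.BEK.KTwo`
-/

set_option autoImplicit false

open Polynomial
open scoped TensorProduct

namespace Pool.Agent.K2B

open Pool.Agent.BEK

noncomputable section

variable {k : Type} [Field k] {g : ℕ}

/-- The coordinate ring `k[x, y] / (y² - P(x) y + 1)` of the affine curve `y + 1/y = P(x)`,
`P = ∏ (x - α_i)`. -/
def Crd (α : Fin (g + 1) → k) : Type := AdjoinRoot (curvePoly α)

instance (α : Fin (g + 1) → k) : CommRing (Crd α) := AdjoinRoot.instCommRing (curvePoly α)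

instance (α : Fin (g + 1) → k) : IsDomain (Crd α) :=
  AdjoinRoot.isDomain_of_prime (curvePoly_irreducible α).prime

/-- The function field of the curve `y + 1/y = P(x)`. -/
def CF (α : Fin (g + 1) → k) : Type := FractionRing (Crd α)

instance (α : Fin (g + 1) → k) : Field (CF α) := FractionRing.field (Crd α)

/-- The inclusion of the coordinate ring in the function field. -/
def CF.of (α : Fin (g + 1) → k) : Crd α →+* CF α := algebraMap (Crd α) (FractionRing (Crd α))

/-- Polynomials in `x` in the coordinate ring. -/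
def Crd.of (α : Fin (g + 1) → k) : k[X] →+* Crd α := AdjoinRoot.of (curvePoly α)

/-- The constants. -/
def CF.const (α : Fin (g + 1) → k) : k →+* CF α := (CF.of α).comp ((Crd.of α).comp C)

/-- The function `x`. -/
def CF.x (α : Fin (g + 1) → k) : CF α := CF.of α (Crd.of α X)

/-- The function `y`. -/
def CF.y (α : Fin (g + 1) → k) : CF α := CF.of α (AdjoinRoot.root (curvePoly α))

open Classical in
/-- The symbol `{a, b}` in `K₂(F) ⊗ ℚ` of two nonzero elements of `F` (`0` if `a = 0` or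
`b = 0`). -/
def sym {F : Type} [Field F] (a b : F) : KQ F :=
  if h : a ≠ 0 ∧ b ≠ 0 then symQ (Units.mk0 a h.1) (Units.mk0 b h.2) else 0

/-- The element `ξ_j = {y, x - α_j}`. -/
def xiQ (α : Fin (g + 1) → k) (j : Fin (g + 1)) : KQ (CF α) :=
  sym (CF.y α) (CF.x α - CF.const α (α j))

/-- The loop lies on the curve over `ℂ` obtained from the embedding `σ`. -/
def OverC {α : Fin (g + 1) → k} (γ : Loop (CF α)) (σ : k →+* ℂ) : Prop :=
  ∀ (θ : ℝ) (c : k), γ.ev θ (CF.const α c) = σ c

/-- The matrix of regulators. -/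
def regMat {F : Type} [Field F] {n : ℕ} (γ : Fin n → Loop F) (ξ : Fin n → KQ F) :
    Matrix (Fin n) (Fin n) ℝ := fun i j => (γ i).reg (ξ j)

/-- The vectors of regulators of the unramified elements span the whole space. -/
def Span {F : Type} [Field F] {n : ℕ} (γ : Fin n → Loop F) : Prop :=
  Submodule.span ℝ {r : Fin n → ℝ | ∃ η : KQ F, Unram η ∧ ∀ i, r i = (γ i).reg η} = ⊤

namespace Fin

theorem spanning {F : Type} [Field F] {n : ℕ} (γ : Fin n → Loop F) (ξ : Fin n → KQ F)
    (hξ : ∀ j, Unram (ξ j)) (h : (regMat γ ξ).det ≠ 0) : Span γ := by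
  unfold Span
  rw [eq_top_iff]
  intro r _
  set M : Matrix (Fin n) (Fin n) ℝ := regMat γ ξ with hM
  have hu : IsUnit M.det := isUnit_iff_ne_zero.mpr h
  have h1 : r = M.mulVec (M⁻¹.mulVec r) := by
    rw [Matrix.mulVec_mulVec, Matrix.mul_nonsing_inv _ hu, Matrix.one_mulVec]
  have h2 : r = ∑ j, (M⁻¹.mulVec r) j • fun i => M i j := by
    conv_lhs => rw [h1]
    funext i
    rw [Matrix.mulVec, dotProduct, Finset.sum_apply]
    apply Finset.sum_congr rfl
    intro j _
    rw [Pi.smul_apply, smul_eq_mul, mul_comm]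
  rw [h2]
  apply Submodule.sum_mem
  intro j _
  apply Submodule.smul_mem
  apply Submodule.subset_span
  exact ⟨ξ j, hξ j, fun i => rfl⟩

theorem independent {F : Type} [Field F] {n : ℕ} (γ : Fin n → Loop F) (ξ : Fin n → KQ F)
    (h : (regMat γ ξ).det ≠ 0) : LinearIndependent ℚ ξ := by
  rw [Fintype.linearIndependent_iff]
  intro g hg
  have h1 : Matrix.mulVec (regMat γ ξ) (fun j => (g j : ℝ)) = 0 := by
    funext i
    rw [Matrix.mulVec, dotProduct]
    have h2 := congrArg (γ i).reg hg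
    rw [map_sum, map_zero] at h2
    rw [Pi.zero_apply, ← h2]
    apply Finset.sum_congr rfl
    intro j _
    rw [map_smul, Rat.smul_def, mul_comm]
    rfl
  have h3 := Matrix.eq_zero_of_mulVec_eq_zero h h1
  intro j
  have h4 := congrFun h3 j
  simpa using h4

theorem tame2_pow {F : Type} [Field F] (v : DV F) (a b : Fˣ) (h : v.tame a b ^ 4 = 1) :
    v.tame2 (symQ a b) = 0 := by
  have e : v.tame2 (symQ a b) = (1 : ℚ) ⊗ₜ[ℤ] (Additive.ofMul (v.tame a b)) := by
    unfold DV.tame2 symQ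
    refine (LinearMap.baseChange_tmul _ _ _).trans ?_
    congr 1
    exact KM.lift_sym v.ts_symbol a b
  rw [e]
  have h2 : (4 : ℤ) • (Additive.ofMul (v.tame a b)) = 0 := by
    have : (4 : ℤ) • (Additive.ofMul (v.tame a b)) = Additive.ofMul (v.tame a b ^ 4) := by
      rw [ofMul_pow, ← natCast_zsmul]
      norm_num
    rw [this, h, ofMul_one]
  have h3 : (1 : ℚ) ⊗ₜ[ℤ] (Additive.ofMul (v.tame a b)) =
      (1 / 4 : ℚ) ⊗ₜ[ℤ] ((4 : ℤ) • (Additive.ofMul (v.tame a b))) := by
    rw [TensorProduct.tmul_smul, TensorProduct.smul_tmul']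
    congr 1
    norm_num
  rw [h3, h2, TensorProduct.tmul_zero]

end Fin

/-- The final statement for one curve. -/
def Final : Prop :=
  ∀ (k : Type) [Field k] [NumberField k] (g : ℕ) (α : Fin (g + 1) → k),
    (∀ i, IsIntegral ℤ (α i)) → ∀ σ : k →+* ℂ, Separated (fun i => σ (α i)) →
    Squarefree (poly α ^ 2 - 4) ∧ (poly α ^ 2 - 4).natDegree = 2 * g + 2 ∧
    (∀ j, Unram (xiQ α j)) ∧ LinearIndependent ℚ (fun j : Fin g => xiQ α j.succ) ∧
    ∃ γ : Fin g → Loop (CF α), (∀ l, OverC (γ l) σ) ∧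
      ((∀ c, (σ c).im = 0) → ∀ l, Anti (γ l)) ∧
      (regMat γ fun j : Fin g => xiQ α j.succ).det ≠ 0 ∧ Span γ

theorem final (hInteg : Stmt_Integ) (hGen : Stmt_Gen)
    (hmain : ∀ (k : Type) [Field k] [NumberField k] (g : ℕ) (α : Fin (g + 1) → k),
      (∀ i, IsIntegral ℤ (α i)) → ∀ σ : k →+* ℂ, Separated (fun i => σ (α i)) →
      Conclusion α σ) : Final := by
  intro k _ _ g α hα σ hs
  obtain ⟨h1, h2, _, _, γ, R, hγc, hγs, hR, hdet⟩ := hmain k g α hα σ hs
  have hy : CF.y α ≠ 0 := All.fy_ne hGen α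
  have hx : ∀ c, CF.x α - CF.const α c ≠ 0 := All.fx_sub_ne hGen α
  have hxi : ∀ j, xiQ α j = symQ (Units.mk0 _ hy) (Units.mk0 _ (hx (α j))) := by
    intro j
    unfold xiQ sym
    rw [dif_pos ⟨hy, hx (α j)⟩]
  have hU : ∀ j, Unram (xiQ α j) := by
    intro j v
    rw [hxi]
    exact Fin.tame2_pow v _ _ (hInteg k (CF α) (CF.const α) g α (CF.x α) (CF.y α) hα
      (fun i => (hGen k g α).2.1 _) (hGen k g α).1 v j _ _ rfl rfl)
  have hM : (regMat (F := CF α) γ fun j : Fin g => xiQ α j.succ).det ≠ 0 := by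
    have e : (regMat (F := CF α) γ fun j : Fin g => xiQ α j.succ) =
        Matrix.of fun l j : Fin g => R l (xi α j.succ) := by
      funext l j
      show (γ l).reg (xiQ α j.succ) = R l (xi α j.succ)
      have e2 : xi α j.succ = usymb (Units.mk0 _ (All.fy_ne hGen α))
          (Units.mk0 _ (All.fx_sub_ne hGen α (α j.succ))) := by
        rw [← symb_coe]; rfl
      rw [hxi, e2, hR]
      exact Loop.reg_sym (F := CF α) (γ l) _ _
    rw [e]
    exact hdet
  exact ⟨h1, h2, hU, Fin.independent _ _ hM, γ, hγc, hγs, hM,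
    Fin.spanning _ _ (fun j => hU _) hM⟩

end

end Pool.Agent.K2B
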