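import Pool.Agent.K2B.Stmts

/-!
# GEN: the function field is generated by the constants and `x`, `y`
-/

set_option autoImplicit false

open Polynomial

namespace Pool.Agent.K2B

open Pool.Agent.BEK

theorem eval₂_curvePoly {k R : Type} [Field k] [CommRing R] {g : ℕ} (α : Fin (g + 1) → k)
    (f : k[X] →+* R) (r : R) :
    (curvePoly α).eval₂ f r = r ^ 2 - f (poly α) * r + 1 := by
  unfold curvePoly
  simp only [eval₂_add, eval₂_sub, eval₂_mul, eval₂_pow, eval₂_X, eval₂_C, eval₂_one]

theorem gen_proof : Stmt_Gen := by
  intro k _ g α
  have hinj : Function.Injective (algebraMap (CoordRing α) (FunField α)) :=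
    IsFractionRing.injective _ _
  have hof : Function.Injective (AdjoinRoot.of (curvePoly α)) := by
    refine AdjoinRoot.of.injective_of_degree_ne_zero ?_
    intro h
    have h2 := curvePoly_natDegree α
    rw [natDegree_eq_of_degree_eq_some h] at h2
    norm_num at h2
  have hcst : ∀ c : k, cst α c = algebraMap (CoordRing α) (FunField α)
      (AdjoinRoot.of (curvePoly α) (C c)) := fun c => rfl
  refine ⟨?_, ?_, ?_⟩
  · have h0 : (curvePoly α).eval₂ (AdjoinRoot.of (curvePoly α)) (AdjoinRoot.root (curvePoly α)) = 0 :=
      AdjoinRoot.eval₂_root _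
    have h00 : (AdjoinRoot.root (curvePoly α)) ^ 2 -
        AdjoinRoot.of (curvePoly α) (poly α) * AdjoinRoot.root (curvePoly α) + 1 = 0 := by
      rw [← h0, eval₂_curvePoly]
    have h1 := congrArg (algebraMap (CoordRing α) (FunField α)) h00
    rw [map_zero, map_add, map_sub, map_mul, map_pow, map_one] at h1
    have h2 : algebraMap (CoordRing α) (FunField α) (AdjoinRoot.of (curvePoly α) (poly α)) =
        ∏ i, (fx α - cst α (α i)) := by
      unfold poly
      rw [map_prod, map_prod]
      refine Finset.prod_congr rfl fun i _ => ?_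
      rw [map_sub, map_sub]
      rfl
    rw [← h2]
    exact h1
  · intro c hc
    unfold fx at hc
    rw [hcst] at hc
    have h1 := hof (hinj hc)
    exact X_ne_C c h1
  · intro S hS hX hY
    have h1 : ∀ p : k[X],
        algebraMap (CoordRing α) (FunField α) (AdjoinRoot.of (curvePoly α) p) ∈ S := by
      intro p
      induction p using Polynomial.induction_on' with
      | add p q hp hq =>
        rw [map_add, map_add]
        exact S.add_mem hp hq
      | monomial n a =>
        rw [← C_mul_X_pow_eq_monomial, map_mul, map_mul, map_pow, map_pow]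
        exact S.mul_mem (hS a) (S.pow_mem hX n)
    have h2 : ∀ P : k[X][X],
        algebraMap (CoordRing α) (FunField α) (AdjoinRoot.mk (curvePoly α) P) ∈ S := by
      intro P
      induction P using Polynomial.induction_on' with
      | add p q hp hq =>
        rw [map_add, map_add]
        exact S.add_mem hp hq
      | monomial n a =>
        rw [← C_mul_X_pow_eq_monomial, map_mul, map_mul, map_pow, map_pow]
        exact S.mul_mem (h1 a) (S.pow_mem hY n)
    rw [eq_top_iff]
    intro f _
    obtain ⟨a, b, hb, rfl⟩ := IsFractionRing.div_surjective (A := CoordRing α) f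
    obtain ⟨P, rfl⟩ := AdjoinRoot.mk_surjective a
    obtain ⟨Q, rfl⟩ := AdjoinRoot.mk_surjective b
    exact S.div_mem (h2 P) (h2 Q)

end Pool.Agent.K2B
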