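import Pool.Agent.K2B.Stmts

set_option autoImplicit false

/-! # GEOA -/

namespace Pool.Agent.K2B

theorem geoA_proof : Stmt_GeoA := by
  intro g a hg h r hr1 hr2
  refine ⟨by linarith, fun i j hij => by linarith [h i j hij], ?_⟩
  intro l x hx
  have hfar : ∀ i, i ≠ l → 3 - r ≤ ‖x - a i‖ := by
    intro i hi
    have h1 := h l i hi.symm
    have h2 : ‖a l - a i‖ ≤ ‖x - a l‖ + ‖x - a i‖ := by
      have : a l - a i = -(x - a l) + (x - a i) := by ring
      rw [this]
      refine (norm_add_le _ _).trans ?_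
      rw [norm_neg]
    rw [hx] at h2
    linarith
  rw [norm_prod]
  obtain ⟨i₀, hi₀⟩ : ∃ i₀ : Fin (g + 1), i₀ ≠ l := by
    have : Nontrivial (Fin (g + 1)) := Fin.nontrivial_iff_two_le.2 (by omega)
    exact exists_ne l
  rw [← Finset.mul_prod_erase _ _ (Finset.mem_univ l),
    ← Finset.mul_prod_erase _ _ (Finset.mem_erase.2 ⟨hi₀, Finset.mem_univ i₀⟩), hx]
  have h3 : 1 ≤ ∏ i ∈ (Finset.univ.erase l).erase i₀, ‖x - a i‖ := by
    refine Finset.prod_induction _ (fun y => 1 ≤ y) (fun a b ha hb => ?_) le_rfl ?_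
    · nlinarith
    · intro i hi
      have := hfar i (Finset.ne_of_mem_erase (Finset.mem_of_mem_erase hi))
      linarith
  have h4 := hfar i₀ hi₀
  have h5 : 11 / 5 ≤ r * ‖x - a i₀‖ := by
    have : 11 / 5 ≤ r * (3 - r) := by nlinarith
    refine this.trans (mul_le_mul_of_nonneg_left h4 (by linarith))
  calc (11 / 5 : ℝ) ≤ r * ‖x - a i₀‖ := h5
    _ ≤ r * (‖x - a i₀‖ * ∏ i ∈ (Finset.univ.erase l).erase i₀, ‖x - a i‖) := by
      refine mul_le_mul_of_nonneg_left ?_ (by linarith)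
      exact le_mul_of_one_le_right (norm_nonneg _) h3

end Pool.Agent.K2B
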