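import Pool.Agent.K2B.Stmts

set_option autoImplicit false

namespace Pool.Agent.K2B

namespace GeoB

theorem far (x y r : ℝ) (hr0 : 19 / 20 < r) (hr1 : r < 1) (h : 2 ≤ |x - y|) :
    (y < x ∧ 2 + r ≤ |x + r - y| ∧ 2 ≤ x - y) ∨ (x < y ∧ y - x - r ≤ |x + r - y| ∧ 2 ≤ y - x) := by
  rcases le_abs.1 h with h | h
  · left
    refine ⟨by linarith, ?_, h⟩
    exact le_trans (by linarith) (le_abs_self _)
  · right
    refine ⟨by linarith, ?_, by linarith⟩
    exact le_trans (by linarith) (neg_le_abs _)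

theorem two (x y z r : ℝ) (hr0 : 19 / 20 < r) (hr1 : r < 1) (h : 2 ≤ |x - y|) (h' : 2 ≤ |x - z|)
    (h2 : 2 ≤ |y - z|) : 29 / 10 ≤ r * (|x + r - y| * |x + r - z|) := by
  have e1 : 29 / 10 ≤ r * ((2 + r) * (2 - r)) := by nlinarith [mul_pos (sub_pos.2 hr0) (sub_pos.2 hr1)]
  have e2 : 29 / 10 ≤ r * ((2 - r) * (4 - r)) := by nlinarith [mul_pos (sub_pos.2 hr0) (sub_pos.2 hr1)]
  have p1 : 0 ≤ 2 - r := by linarith
  have p2 : 0 ≤ 2 + r := by linarith
  have p3 : 0 ≤ 4 - r := by linarith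
  have p4 : 0 ≤ r := by linarith
  rcases far x y r hr0 hr1 h with ⟨a1, a2, a3⟩ | ⟨a1, a2, a3⟩
  · have hz : 2 - r ≤ |x + r - z| := by
      rcases far x z r hr0 hr1 h' with ⟨b1, b2, b3⟩ | ⟨b1, b2, b3⟩ <;> linarith
    exact e1.trans (mul_le_mul_of_nonneg_left (mul_le_mul a2 hz p1 (abs_nonneg _)) p4)
  · rcases far x z r hr0 hr1 h' with ⟨b1, b2, b3⟩ | ⟨b1, b2, b3⟩
    · have hy : 2 - r ≤ |x + r - y| := by linarith
      rw [mul_comm (|x + r - y|)]
      exact e1.trans (mul_le_mul_of_nonneg_left (mul_le_mul b2 hy p1 (abs_nonneg _)) p4)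
    · rcases le_abs.1 h2 with h2 | h2
      · have hy : 4 - r ≤ |x + r - y| := by linarith
        have hz : 2 - r ≤ |x + r - z| := by linarith
        rw [mul_comm (|x + r - y|)]
        exact e2.trans (mul_le_mul_of_nonneg_left (mul_le_mul hz hy p3 (abs_nonneg _)) p4)
      · have hy : 2 - r ≤ |x + r - y| := by linarith
        have hz : 4 - r ≤ |x + r - z| := by linarith
        exact e2.trans (mul_le_mul_of_nonneg_left (mul_le_mul hy hz p3 (abs_nonneg _)) p4)

end GeoB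

open Finset in
theorem geoB_proof : Stmt_GeoB := by
  intro n b hn hsep r hr0 hr1 l
  have hc : 1 < ((univ : Finset (Fin n)).erase l).card := by
    rw [card_erase_of_mem (mem_univ l), card_univ, Fintype.card_fin]
    omega
  obtain ⟨i, hi, j, hj, hij⟩ := one_lt_card.1 hc
  have hil : i ≠ l := ne_of_mem_erase hi
  have hjl : j ≠ l := ne_of_mem_erase hj
  have hone : ∀ m, m ≠ l → 1 ≤ |b l + r - b m| := by
    intro m hm
    rcases GeoB.far (b l) (b m) r hr0 hr1 (hsep l m (Ne.symm hm)) with ⟨b1, b2, b3⟩ | ⟨b1, b2, b3⟩ <;>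
      linarith
  have hj' : j ∈ ((univ : Finset (Fin n)).erase l).erase i := mem_erase.2 ⟨Ne.symm hij, hj⟩
  rw [abs_prod, ← mul_prod_erase _ _ (mem_univ l), ← mul_prod_erase _ _ hi,
    ← mul_prod_erase _ _ hj']
  have h1 : 1 ≤ ∏ x ∈ (((univ : Finset (Fin n)).erase l).erase i).erase j, |b l + r - b x| := by
    have := prod_le_prod (s := (((univ : Finset (Fin n)).erase l).erase i).erase j)
      (f := fun _ => (1 : ℝ)) (g := fun x => |b l + r - b x|) (fun _ _ => zero_le_one)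
      (fun x hx => hone x (ne_of_mem_erase (mem_of_mem_erase (mem_of_mem_erase hx))))
    simpa using this
  have h2 := GeoB.two (b l) (b i) (b j) r hr0 hr1 (hsep l i (Ne.symm hil))
    (hsep l j (Ne.symm hjl)) (hsep i j hij)
  have h3 : |b l + r - b l| = r := by
    rw [add_sub_cancel_left, abs_of_pos (by linarith)]
  rw [h3]
  calc (29 / 10 : ℝ) ≤ r * (|b l + r - b i| * |b l + r - b j|) := h2
    _ = r * (|b l + r - b i| * (|b l + r - b j| * 1)) := by ring
    _ ≤ _ := by gcongr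

theorem geob_proof : Stmt_GeoB := geoB_proof

end Pool.Agent.K2B
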