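import Pool.Agent.K2B.Stmts

/-!
# Module GEOC
-/

set_option autoImplicit false

namespace Pool.Agent.K2B

noncomputable section

namespace GeoCX

/-- The integer attached to a difference. -/
def rd (t : ℝ) : ℤ := if 0 ≤ t then ⌊t⌋ else ⌈t⌉

theorem rd_zero : rd 0 = 0 := by simp [rd]

theorem prod_ge (T : Finset ℤ) (hT : 6 ≤ T.card) (r : ℝ) (h1 : 9 / 20 < r) (h2 : r < 1 / 2) :
    17 / 5 ≤ ∏ m ∈ T, |r - m| := by
  classical
  let S : Finset ℤ := {-2, -1, 0, 1, 2, 3}
  have hS : S.card = 6 := rfl
  have hmemS : ∀ m : ℤ, m ∈ S ↔ -2 ≤ m ∧ m ≤ 3 := by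
    intro m
    simp only [S, Finset.mem_insert, Finset.mem_singleton]
    omega
  have hcard : (S \ T).card ≤ (T \ S).card := by
    have e1 := Finset.card_sdiff_add_card_inter S T
    have e2 := Finset.card_sdiff_add_card_inter T S
    rw [Finset.inter_comm] at e2
    omega
  have hTS : (3 : ℝ) ^ (T \ S).card ≤ ∏ m ∈ T \ S, |r - m| := by
    rw [← Finset.prod_const]
    apply Finset.prod_le_prod (fun _ _ => by norm_num)
    intro m hm
    rw [Finset.mem_sdiff, hmemS] at hm
    rcases lt_or_ge m (-2) with h | h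
    · have h3 : (m : ℝ) ≤ -3 := by
        have : m ≤ -3 := by omega
        exact_mod_cast this
      exact le_trans (by linarith) (le_abs_self _)
    · have h3 : (4 : ℝ) ≤ m := by
        have : 4 ≤ m := by
          by_contra hcon
          exact hm.2 ⟨h, by omega⟩
        exact_mod_cast this
      exact le_trans (by linarith) (neg_le_abs _)
  have hST : ∏ m ∈ S \ T, |r - m| ≤ (3 : ℝ) ^ (S \ T).card := by
    rw [← Finset.prod_const]
    apply Finset.prod_le_prod (fun _ _ => abs_nonneg _)
    intro m hm
    rw [Finset.mem_sdiff, hmemS] at hm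
    have h3 : (-2 : ℝ) ≤ m := by exact_mod_cast hm.1.1
    have h4 : (m : ℝ) ≤ 3 := by exact_mod_cast hm.1.2
    rw [abs_le]
    constructor <;> linarith
  have hcmp : ∏ m ∈ S \ T, |r - m| ≤ ∏ m ∈ T \ S, |r - m| :=
    hST.trans ((pow_le_pow_right₀ (by norm_num) hcard).trans hTS)
  have e1 : ∏ m ∈ S, |r - m| = (∏ m ∈ S \ T, |r - m|) * ∏ m ∈ S ∩ T, |r - m| := by
    rw [← Finset.prod_union (Finset.disjoint_sdiff_inter S T), Finset.sdiff_union_inter]
  have e2 : ∏ m ∈ T, |r - m| = (∏ m ∈ T \ S, |r - m|) * ∏ m ∈ S ∩ T, |r - m| := by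
    rw [Finset.inter_comm, ← Finset.prod_union (Finset.disjoint_sdiff_inter T S),
      Finset.sdiff_union_inter]
  have hle : ∏ m ∈ S, |r - m| ≤ ∏ m ∈ T, |r - m| := by
    rw [e1, e2]
    exact mul_le_mul_of_nonneg_right hcmp (Finset.prod_nonneg fun _ _ => abs_nonneg _)
  refine le_trans ?_ hle
  have hprod : ∏ m ∈ S, |r - m| =
      (r - r ^ 2) * (2 + (r - r ^ 2)) * (6 + (r - r ^ 2)) := by
    simp only [S]
    rw [Finset.prod_insert (by decide), Finset.prod_insert (by decide),
      Finset.prod_insert (by decide), Finset.prod_insert (by decide),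
      Finset.prod_insert (by decide), Finset.prod_singleton]
    push_cast
    rw [abs_of_pos (show (0 : ℝ) < r - -2 by linarith),
      abs_of_pos (show (0 : ℝ) < r - -1 by linarith),
      abs_of_pos (show (0 : ℝ) < r - 0 by linarith),
      abs_of_neg (show r - 1 < 0 by linarith), abs_of_neg (show r - 2 < 0 by linarith),
      abs_of_neg (show r - 3 < 0 by linarith)]
    ring
  rw [hprod]
  have hs : 99 / 400 ≤ r - r ^ 2 := by nlinarith
  have a1 : (99 / 400 : ℝ) * (2 + 99 / 400) ≤ (r - r ^ 2) * (2 + (r - r ^ 2)) := by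
    apply mul_le_mul hs (by linarith) (by norm_num) (by linarith)
  have a2 : (99 / 400 : ℝ) * (2 + 99 / 400) * (6 + 99 / 400) ≤
      (r - r ^ 2) * (2 + (r - r ^ 2)) * (6 + (r - r ^ 2)) := by
    apply mul_le_mul a1 (by linarith) (by norm_num) (le_trans (by norm_num) a1)
  refine le_trans ?_ a2
  norm_num

end GeoCX

open GeoCX in
theorem geoc_proof : Stmt_GeoC := by
  classical
  intro n b hn hb r h1 h2 l
  let h : Fin n → ℤ := fun i => rd (b i - b l)
  have hsep : ∀ i, i ≠ l → 1 ≤ b i - b l ∨ b i - b l ≤ -1 := by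
    intro i hi
    rcases le_abs.mp (hb i l hi) with h3 | h3
    · exact Or.inl h3
    · exact Or.inr (by linarith)
  have hpos : ∀ i, 0 ≤ b i - b l → h i = ⌊b i - b l⌋ := fun i hi => if_pos hi
  have hneg : ∀ i, b i - b l < 0 → h i = ⌈b i - b l⌉ := fun i hi => if_neg (not_le.mpr hi)
  have hnegle : ∀ i, b i - b l < 0 → h i ≤ -1 := by
    intro i hi
    rw [hneg i hi, Int.ceil_le]
    have hil : i ≠ l := by
      intro h0
      rw [h0, sub_self] at hi
      exact lt_irrefl _ hi
    rcases hsep i hil with h3 | h3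
    · linarith
    · push_cast
      exact h3
  have hposge : ∀ i, 0 ≤ b i - b l → 0 ≤ h i := by
    intro i hi
    rw [hpos i hi]
    exact Int.floor_nonneg.mpr hi
  have hinj : Function.Injective h := by
    intro i j hij
    by_contra hne
    have h3 := hb i j hne
    rcases lt_or_ge (b i - b l) 0 with hi | hi
    · rcases lt_or_ge (b j - b l) 0 with hj | hj
      · rw [hneg i hi, hneg j hj] at hij
        have e1 := Int.le_ceil (b i - b l)
        have e2 := Int.ceil_lt_add_one (b i - b l)
        have e3 := Int.le_ceil (b j - b l)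
        have e4 := Int.ceil_lt_add_one (b j - b l)
        rw [hij] at e1 e2
        rcases le_abs.mp h3 with h4 | h4 <;> linarith
      · have e1 := hnegle i hi
        have e2 := hposge j hj
        omega
    · rcases lt_or_ge (b j - b l) 0 with hj | hj
      · have e1 := hnegle j hj
        have e2 := hposge i hi
        omega
      · rw [hpos i hi, hpos j hj] at hij
        have e1 := Int.floor_le (b i - b l)
        have e2 := Int.lt_floor_add_one (b i - b l)
        have e3 := Int.floor_le (b j - b l)
        have e4 := Int.lt_floor_add_one (b j - b l)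
        rw [hij] at e1 e2
        rcases le_abs.mp h3 with h4 | h4 <;> linarith
  have hcmp : ∀ i, |r - h i| ≤ |b l + r - b i| := by
    intro i
    by_cases hil : i = l
    · subst hil
      have : h i = 0 := by
        change rd (b i - b i) = 0
        rw [sub_self, rd_zero]
      rw [this]
      apply le_of_eq
      congr 1
      push_cast
      ring
    · rcases hsep i hil with h3 | h3
      · rw [hpos i (by linarith)]
        have e1 := Int.floor_le (b i - b l)
        have e2 : (1 : ℝ) ≤ ⌊b i - b l⌋ := by
          have : 1 ≤ ⌊b i - b l⌋ := Int.le_floor.mpr (by push_cast; exact h3)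
          exact_mod_cast this
        rw [abs_of_neg (show r - (⌊b i - b l⌋ : ℝ) < 0 by linarith),
          abs_of_neg (show b l + r - b i < 0 by linarith)]
        linarith
      · rw [hneg i (by linarith)]
        have e1 := Int.le_ceil (b i - b l)
        have e2 : (⌈b i - b l⌉ : ℝ) ≤ -1 := by
          have : ⌈b i - b l⌉ ≤ -1 := Int.ceil_le.mpr (by push_cast; exact h3)
          exact_mod_cast this
        rw [abs_of_pos (show 0 < r - (⌈b i - b l⌉ : ℝ) by linarith),
          abs_of_pos (show 0 < b l + r - b i by linarith)]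
        linarith
  have hT := prod_ge (Finset.univ.image h)
    (by rw [Finset.card_image_of_injective _ hinj, Finset.card_univ, Fintype.card_fin]; exact hn)
    r h1 h2
  rw [Finset.prod_image (fun i _ j _ hij => hinj hij)] at hT
  rw [Finset.abs_prod]
  exact hT.trans (Finset.prod_le_prod (fun _ _ => abs_nonneg _) fun i _ => hcmp i)

end

end Pool.Agent.K2B
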