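import Pool.Agent.K2B.Stmts
import Pool.Agent.BEK.UnrBase

/-!
# Squad K2B, module INTEG: the tame symbols of `{y, x - α_j}` are roots of unity
-/

set_option autoImplicit false

namespace Pool.Agent.K2B

open Pool.Agent.BEK Pool.Agent.BEK.Unr

namespace Integ

variable {F : Type} [Field F] {v : DV F}

/-- The valuation ring. -/
def vring (v : DV F) : ValuationSubring F where
  carrier := {a | ∀ u : Fˣ, (u : F) = a → 0 ≤ v.ord u}
  mul_mem' := by
    intro a b ha hb u hu
    have ha0 : a ≠ 0 := by
      intro e; apply u.ne_zero; rw [hu, e, zero_mul]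
    have hb0 : b ≠ 0 := by
      intro e; apply u.ne_zero; rw [hu, e, mul_zero]
    have e : u = Units.mk0 a ha0 * Units.mk0 b hb0 := Units.ext hu
    rw [e, v.mul]
    exact add_nonneg (ha _ rfl) (hb _ rfl)
  one_mem' := by
    intro u hu
    have : u = 1 := Units.ext hu
    rw [this, v.one]
  add_mem' := by
    intro a b ha hb u hu
    by_cases ha0 : a = 0
    · rw [ha0, zero_add] at hu
      exact hb u hu
    · by_cases hb0 : b = 0
      · rw [hb0, add_zero] at hu
        exact ha u hu
      · have h := v.add (Units.mk0 a ha0) (Units.mk0 b hb0) u (by rw [hu]; rfl)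
        exact le_trans (le_min (ha _ rfl) (hb _ rfl)) h
  zero_mem' := by
    intro u hu
    exact absurd hu u.ne_zero
  neg_mem' := by
    intro a ha u hu
    have h := ha (-u) (by rw [Units.val_neg, hu, neg_neg])
    have e : -u = (-1) * u := by simp
    rw [e, v.mul, v.neg_one, zero_add] at h
    exact h
  mem_or_inv_mem' := by
    intro a
    by_cases ha0 : a = 0
    · left
      intro u hu
      exact absurd (hu.trans ha0) u.ne_zero
    · rcases le_total 0 (v.ord (Units.mk0 a ha0)) with h | h
      · left
        intro u hu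
        have : u = Units.mk0 a ha0 := Units.ext hu
        rw [this]; exact h
      · right
        intro u hu
        have : u = (Units.mk0 a ha0)⁻¹ := Units.ext (by rw [hu]; simp)
        rw [this, v.inv]; omega

theorem ord_nonneg_of_integral (v : DV F) (u : Fˣ) (h : IsIntegral ℤ (u : F)) :
    0 ≤ v.ord u := by
  have h2 : IsIntegral (vring v) (u : F) := h.tower_top
  obtain ⟨y, hy⟩ := IsIntegrallyClosed.isIntegral_iff.mp h2
  exact y.2 u hy.symm

theorem I_of_integral {a : F} (h : IsIntegral ℤ a) : I v a := by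
  by_cases h0 : a = 0
  · exact Or.inl h0
  · right
    rw [o_mk v h0]
    exact ord_nonneg_of_integral v _ h

theorem I_prod {ι : Type} (s : Finset ι) (f : ι → F) (h : ∀ i ∈ s, I v (f i)) :
    I v (∏ i ∈ s, f i) := by
  classical
  induction s using Finset.induction_on with
  | empty => rw [Finset.prod_empty]; exact I_one
  | insert a s ha ih =>
    rw [Finset.prod_insert ha]
    exact (h a (Finset.mem_insert_self a s)).mul
      (ih fun i hi => h i (Finset.mem_insert_of_mem hi))

theorem Eqv_prod {ι : Type} (s : Finset ι) (f : ι → F) (h : ∀ i ∈ s, Eqv v (f i) 1) :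
    Eqv v (∏ i ∈ s, f i) 1 := by
  classical
  induction s using Finset.induction_on with
  | empty => rw [Finset.prod_empty]; exact ⟨Un_one, Or.inl (sub_self _)⟩
  | insert a s ha ih =>
    rw [Finset.prod_insert ha]
    have h2 := (h a (Finset.mem_insert_self a s)).mul
      (ih fun i hi => h i (Finset.mem_insert_of_mem hi))
    rwa [one_mul] at h2

theorem pow_four_of_mem {u w : Fˣ} (h : ((v.tu u w : v.U) : Fˣ) ^ 4 ∈ v.U1) :
    v.tame u w ^ 4 = 1 := by
  have h1 : v.tame u w ^ 4 = QuotientGroup.mk ((v.tu u w) ^ 4) := rfl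
  rw [h1, QuotientGroup.eq_one_iff]
  exact Subgroup.mem_subgroupOf.mpr h

theorem neg_one_zpow_four (n : ℤ) : (((-1 : Fˣ)) ^ n) ^ 4 = 1 := by
  rw [← zpow_natCast, ← zpow_mul, mul_comm, zpow_mul]
  have : ((-1 : Fˣ)) ^ ((4 : ℕ) : ℤ) = 1 := by
    rw [zpow_natCast]
    exact Even.neg_one_pow (by decide)
  rw [this, one_zpow]

/-- if `u` is a power of `w` up to `U1`, the tame symbol is `± 1` -/
theorem tame_of_eq {u w e : Fˣ} (n : ℤ) (h : u = w ^ n * e) (he : e ∈ v.U1) :
    v.tame u w ^ 4 = 1 := by
  apply pow_four_of_mem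
  have h0 : v.ord u = n * v.ord w := by
    rw [h, v.mul, v.zpow, he.1, add_zero]
  have h1 : ((v.tu u w : v.U) : Fˣ) = (-1) ^ (v.ord u * v.ord w) * e ^ v.ord w := by
    show (-1) ^ (v.ord u * v.ord w) * u ^ v.ord w * (w ^ v.ord u)⁻¹ = _
    rw [h0]
    conv_lhs => rw [h]
    rw [mul_zpow, ← zpow_mul, mul_assoc]
    congr 1
    rw [mul_comm (w ^ (n * v.ord w)), mul_inv_cancel_right]
  rw [h1, mul_pow, neg_one_zpow_four, one_mul]
  exact pow_mem (zpow_mem he _) _

theorem equiv_unit {u : F} {w : Fˣ} {n : ℤ} {e : Fˣ} (he : (e : F) = u / (w : F) ^ n)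
    (h : Eqv v (u / (w : F) ^ n) 1) : e ∈ v.U1 := by
  apply mem_U1
  rw [he]
  exact h

end Integ

open Integ in
theorem integ_proof : Stmt_Integ := by
  intro k F _ _ c g α x y hα hx hy v j u w hu hw
  -- the constants are integral
  have hI : ∀ i, I v (c (α i)) := fun i => I_of_integral ((hα i).map c.toIntAlgHom)
  set P : F := ∏ i, (x - c (α i)) with hP
  have hP0 : P ≠ 0 := Finset.prod_ne_zero_iff.mpr fun i _ => sub_ne_zero.mpr (hx i)
  have hy0 : y ≠ 0 := hu ▸ u.ne_zero
  have hw0 : x - c (α j) ≠ 0 := sub_ne_zero.mpr (hx j)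
  by_cases hneg : o v (x - c (α j)) < 0
  · -- near infinity
    have hMi : M v (x - c (α j))⁻¹ := by right; rw [o_inv]; omega
    have h1 : ∀ i ∈ Finset.univ, Eqv v ((x - c (α i)) / (x - c (α j))) 1 := by
      intro i _
      refine ⟨Un_one, ?_⟩
      have e : (x - c (α i)) / (x - c (α j)) - 1 =
          (c (α j) - c (α i)) * (x - c (α j))⁻¹ := by
        field_simp
        ring
      rw [e]
      exact ((hI j).sub (hI i)).mul_M hMi
    have h2 := Eqv_prod Finset.univ _ h1
    rw [Finset.prod_div_distrib, Finset.prod_const, Finset.card_univ, Fintype.card_fin,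
      ← hP] at h2
    have hoP : o v P = (g + 1) * o v (x - c (α j)) := by
      have h3 := h2.un.2
      rw [o_div v hP0 (pow_ne_zero _ hw0), o_pow v hw0] at h3
      push_cast at h3
      linarith
    have hoP' : o v P < 0 := by
      rw [hoP]
      exact mul_neg_of_pos_of_neg (by positivity) hneg
    by_cases hoy : o v y ≤ 0
    · have h3 : Eqv v (y / P) 1 := by
        refine ⟨Un_one, ?_⟩
        have e : y / P - 1 = -(y * P)⁻¹ := by
          field_simp
          linear_combination hy
        rw [e]
        have : M v (y * P)⁻¹ := by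
          right
          rw [o_inv, o_mul v hy0 hP0]; omega
        exact this.neg
      have h4 := h3.mul h2
      rw [one_mul, div_mul_div_cancel₀ hP0] at h4
      have e0 : y / (x - c (α j)) ^ (g + 1) ≠ 0 := div_ne_zero hy0 (pow_ne_zero _ hw0)
      refine tame_of_eq (e := Units.mk0 _ e0) ((g : ℤ) + 1) ?_ (mem_U1 (by
        rw [Units.val_mk0]; exact h4))
      apply Units.ext
      rw [Units.val_mul, Units.val_mk0, Units.val_zpow_eq_zpow_val, hu, hw]
      have : (x - c (α j)) ^ ((g : ℤ) + 1) = (x - c (α j)) ^ (g + 1) := by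
        rw [← zpow_natCast]; push_cast; rfl
      rw [this]
      field_simp
    · have h3 : Eqv v (y⁻¹ / P) 1 := by
        refine ⟨Un_one, ?_⟩
        have e : y⁻¹ / P - 1 = -(y / P) := by
          field_simp
          linear_combination hy
        rw [e]
        have : M v (y / P) := by
          right
          rw [o_div v hy0 hP0]; omega
        exact this.neg
      have h4 := h3.mul h2
      rw [one_mul, div_mul_div_cancel₀ hP0] at h4
      have h5 := h4.inv
      rw [inv_one] at h5
      have e0 : (y⁻¹ / (x - c (α j)) ^ (g + 1))⁻¹ ≠ 0 :=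
        inv_ne_zero (div_ne_zero (inv_ne_zero hy0) (pow_ne_zero _ hw0))
      refine tame_of_eq (e := Units.mk0 _ e0) (-((g : ℤ) + 1)) ?_ (mem_U1 (by
        rw [Units.val_mk0]; exact h5))
      apply Units.ext
      rw [Units.val_mul, Units.val_mk0, Units.val_zpow_eq_zpow_val, hu, hw]
      have : (x - c (α j)) ^ (-((g : ℤ) + 1)) = ((x - c (α j)) ^ (g + 1))⁻¹ := by
        rw [zpow_neg, ← zpow_natCast]; push_cast; rfl
      rw [this]
      field_simp
  · -- the finite part
    have hIj : I v (x - c (α j)) := Or.inr (not_lt.mp hneg)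
    have hIi : ∀ i ∈ Finset.univ, I v (x - c (α i)) := by
      intro i _
      have e : x - c (α i) = (x - c (α j)) + (c (α j) - c (α i)) := by ring
      rw [e]
      exact hIj.add ((hI j).sub (hI i))
    have hIP : I v P := I_prod _ _ hIi
    have hIy : I v y := I_of_quadratic (p := -P) (q := -1) hIP.neg (I_one.neg) (by
      linear_combination hy)
    have hyy : y * (P - y) = 1 := by linear_combination -hy
    have hUy : Un v y := Un.left_of_mul (a := y) (b := P - y) (by rw [hyy]; exact Un_one)
      hIy (hIP.sub hIy)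
    have hou : v.ord u = 0 := by
      have := hUy.2
      rw [← hu, o_unit] at this
      exact this
    apply pow_four_of_mem
    have h1 : ((v.tu u w : v.U) : Fˣ) = u ^ v.ord w := by
      show (-1) ^ (v.ord u * v.ord w) * u ^ v.ord w * (w ^ v.ord u)⁻¹ = _
      rw [hou]
      simp
    rw [h1, ← zpow_natCast, ← zpow_mul, mul_comm, zpow_mul]
    by_cases how : o v (x - c (α j)) = 0
    · have : v.ord w = 0 := by rw [← hw, o_unit] at how; exact how
      rw [this, zpow_zero]
      exact one_mem _
    · have hMw : M v (x - c (α j)) := by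
        right
        omega
      have hMP : M v P := by
        rw [hP, ← Finset.mul_prod_erase Finset.univ (fun i => x - c (α i)) (Finset.mem_univ j)]
        exact hMw.mul_I (I_prod _ _ fun i hi => hIi i (Finset.mem_univ i))
      apply zpow_mem
      apply mem_U1
      refine ⟨Un_one, ?_⟩
      have e : ((u ^ ((4 : ℕ) : ℤ) : Fˣ) : F) - 1 = (P * y) * (y ^ 2 - 1) := by
        rw [Units.val_zpow_eq_zpow_val, zpow_natCast, hu]
        linear_combination (y ^ 2 - 1) * hy
      rw [e]
      exact (hMP.mul_I hIy).mul_I ((hIy.pow 2).sub I_one)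

end Pool.Agent.K2B
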