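import Pool.Agent.K2B.Stmts

/-!
# LIN: the regulator of two linear functions
-/

set_option autoImplicit false

namespace Pool.Agent.K2B

open Pool.Agent.BEK

theorem lin_proof (hR : Stmt_Reg) (hD : Pool.Agent.BEK.Stmt_Dilog) : Stmt_Lin := by
  intro X a b hab ha hb
  obtain ⟨r1, r2, r3, r4, r5, r6⟩ := hR
  have hba : b - a ≠ 0 := sub_ne_zero.2 hab.symm
  have hab' : a - b ≠ 0 := sub_ne_zero.2 hab
  have hc1 : Nz (fun _ : ℝ => (b - a)⁻¹) :=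
    ⟨contDiff_const, fun _ => rfl, fun _ => inv_ne_zero hba⟩
  have hc2 : Nz (fun _ : ℝ => (a - b)⁻¹) :=
    ⟨contDiff_const, fun _ => rfl, fun _ => inv_ne_zero hab'⟩
  have hz1 : Nz (fun θ => (b - a)⁻¹ * (X θ - a)) :=
    ⟨hc1.smooth.mul ha.smooth, fun θ => congrArg (fun t => (b - a)⁻¹ * t) (ha.periodic θ), fun θ => mul_ne_zero (hc1.ne θ) (ha.ne θ)⟩
  have hz2 : Nz (fun θ => (a - b)⁻¹ * (X θ - b)) :=
    ⟨hc2.smooth.mul hb.smooth, fun θ => congrArg (fun t => (a - b)⁻¹ * t) (hb.periodic θ), fun θ => mul_ne_zero (hc2.ne θ) (hb.ne θ)⟩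
  have heq : ∀ θ, 1 - (b - a)⁻¹ * (X θ - a) = (a - b)⁻¹ * (X θ - b) := by
    intro θ
    have e : (a - b)⁻¹ = -(b - a)⁻¹ := by
      rw [← neg_sub b a, inv_neg]
    rw [e]
    have e2 : (b - a)⁻¹ * (b - a) = 1 := inv_mul_cancel₀ hba
    linear_combination -e2
  have h0 := hD (fun θ => (b - a)⁻¹ * (X θ - a)) hz1.smooth hz1.periodic hz1.ne (by
    intro θ h
    have h1 := hz2.ne θ
    apply h1
    show (a - b)⁻¹ * (X θ - b) = 0
    rw [← heq θ]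
    have h2 : (b - a)⁻¹ * (X θ - a) = 1 := h
    rw [h2, sub_self])
  have h1 : (fun θ => 1 - (b - a)⁻¹ * (X θ - a)) = fun θ => (a - b)⁻¹ * (X θ - b) :=
    funext heq
  rw [h1] at h0
  rw [r1 _ _ _ hc1 ha hz2, r2 _ _ _ hc1 hc2 hb, r2 _ _ _ ha hc2 hb] at h0
  rw [r3 (fun _ => (a - b)⁻¹) (fun θ => X θ - a)] at h0
  rw [r4 _ (fun _ => (a - b)⁻¹), r6, r4 _ (fun θ => X θ - b), r4 _ (fun θ => X θ - a)] at h0
  have e1 : ‖(b - a)⁻¹‖ = ‖a - b‖⁻¹ := by rw [norm_inv, norm_sub_rev]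
  have e2 : ‖(a - b)⁻¹‖ = ‖a - b‖⁻¹ := by rw [norm_inv]
  rw [e1, e2, Real.log_inv] at h0
  linarith

end Pool.Agent.K2B
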