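import Pool.Agent.K2B.Stmts

/-!
# Squad K2B, module MAXP: a maximum principle
-/

set_option autoImplicit false

namespace Pool.Agent.K2B

namespace Maxp

open Finset

theorem key {n : ℕ} (M : Fin n → Fin n → ℝ) (near : Fin n → Fin n → Prop) (ε ω : ℝ) (hε : 0 ≤ ε)
    (hω : 4 * ε < ω) (l : Fin n) (hc : Set.ncard {i | i ≠ l ∧ near l i} ≤ 2)
    (hn : ∀ i, i ≠ l → near l i → M l i ≤ ε) (hf : ∀ i, i ≠ l → ¬ near l i → M l i ≤ -ω)
    (u : Fin n → ℝ) (D : ℝ) (hu : ∀ i, 0 ≤ u i ∧ u i ≤ D) (hl : u l = 0)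
    (hs : ∑ i, M l i * u i = 0) (i₀ : Fin n) (h1 : i₀ ≠ l) (h2 : ¬ near l i₀) :
    ω * u i₀ ≤ 2 * ε * D := by
  classical
  have hD : 0 ≤ D := (hu l).1.trans (hu l).2
  have hω0 : 0 ≤ ω := by linarith
  have ht : ∀ i, (if i = i₀ then ω * u i₀ else 0) + (if i ≠ l ∧ near l i then -(ε * D) else 0)
      ≤ -(M l i * u i) := by
    intro i
    obtain ⟨ha, hb⟩ := hu i
    by_cases hil : i = l
    · subst hil
      rw [if_neg (fun h => h1 h.symm), if_neg (fun h => h.1 rfl), hl]
      simp
    · by_cases hnr : near l i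
      · have hi0 : i ≠ i₀ := fun h => h2 (h ▸ hnr)
        rw [if_neg hi0, if_pos ⟨hil, hnr⟩]
        have := hn i hil hnr
        have e1 : M l i * u i ≤ ε * u i := mul_le_mul_of_nonneg_right this ha
        have e2 : ε * u i ≤ ε * D := mul_le_mul_of_nonneg_left hb hε
        linarith
      · rw [if_neg (fun h : i ≠ l ∧ near l i => hnr h.2)]
        have := hf i hil hnr
        have e1 : M l i * u i ≤ -ω * u i := mul_le_mul_of_nonneg_right this ha
        by_cases hi0 : i = i₀
        · rw [if_pos hi0, ← hi0]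
          linarith
        · rw [if_neg hi0]
          have : 0 ≤ ω * u i := mul_nonneg hω0 ha
          linarith
  have hsum := Finset.sum_le_sum fun i (_ : i ∈ (Finset.univ : Finset (Fin n))) => ht i
  rw [Finset.sum_neg_distrib, hs, neg_zero, Finset.sum_add_distrib, Finset.sum_ite_eq' , if_pos (mem_univ _),
    ← Finset.sum_filter, Finset.sum_const, nsmul_eq_mul] at hsum
  have hcard : ((Finset.univ.filter fun i => i ≠ l ∧ near l i).card : ℝ) ≤ 2 := by
    have : (Finset.univ.filter fun i => i ≠ l ∧ near l i).card ≤ 2 := by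
      rw [← Set.ncard_coe_finset]
      simpa using hc
    exact_mod_cast this
  have e3 : ((Finset.univ.filter fun i => i ≠ l ∧ near l i).card : ℝ) * (ε * D) ≤ 2 * (ε * D) :=
    mul_le_mul_of_nonneg_right hcard (mul_nonneg hε hD)
  linarith

end Maxp

theorem maxp_proof : Stmt_MaxP := by
  intro n M near ε ω hε hω hsym hc h3 hn hf hrow v hv
  have hne : ∀ i : Fin n, (Finset.univ : Finset (Fin n)).Nonempty := fun i => ⟨i, Finset.mem_univ _⟩
  intro a b
  obtain ⟨l, -, hl⟩ := Finset.exists_max_image Finset.univ v (hne a)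
  obtain ⟨m, -, hm⟩ := Finset.exists_min_image Finset.univ v (hne a)
  have hl' : ∀ i, v i ≤ v l := fun i => hl i (Finset.mem_univ _)
  have hm' : ∀ i, v m ≤ v i := fun i => hm i (Finset.mem_univ _)
  by_contra hab
  have hD : 0 < v l - v m := by
    have h1 := hl' a
    have h2 := hl' b
    have h3 := hm' a
    have h4 := hm' b
    rcases lt_or_gt_of_ne hab with h | h <;> linarith
  have hlm : m ≠ l := by
    intro h
    rw [h] at hD
    linarith
  have k1 : ∀ i₀, i₀ ≠ l → ¬ near l i₀ → ω * (v l - v i₀) ≤ 2 * ε * (v l - v m) := by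
    intro i₀ h1 h2
    refine Maxp.key M near ε ω hε hω l (hc l) (hn l) (hf l) (fun i => v l - v i) (v l - v m)
      (fun i => ⟨by linarith [hl' i], by linarith [hm' i]⟩) (by simp) ?_ i₀ h1 h2
    have e1 : ∀ i, M l i * (v l - v i) = M l i * v l - M l i * v i := fun i => by ring
    rw [Finset.sum_congr rfl fun i _ => e1 i, Finset.sum_sub_distrib, hv l, ← Finset.sum_mul, hrow l]
    simp
  have k2 : ∀ i₀, i₀ ≠ m → ¬ near m i₀ → ω * (v i₀ - v m) ≤ 2 * ε * (v l - v m) := by
    intro i₀ h1 h2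
    refine Maxp.key M near ε ω hε hω m (hc m) (hn m) (hf m) (fun i => v i - v m) (v l - v m)
      (fun i => ⟨by linarith [hm' i], by linarith [hl' i]⟩) (by simp) ?_ i₀ h1 h2
    have e1 : ∀ i, M m i * (v i - v m) = M m i * v i - M m i * v m := fun i => by ring
    rw [Finset.sum_congr rfl fun i _ => e1 i, Finset.sum_sub_distrib, hv m, ← Finset.sum_mul, hrow m]
    simp
  by_cases hnr : near l m
  · obtain ⟨i, i1, i2, i3, i4⟩ := h3 l m hlm.symm hnr
    have e1 := k1 i i1 i3
    have e2 := k2 i i2 i4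
    have e3 : ω * (v l - v m) ≤ 4 * ε * (v l - v m) := by linarith
    have e4 := le_of_mul_le_mul_right e3 hD
    linarith
  · have e1 := k1 m hlm hnr
    have e4 := le_of_mul_le_mul_right e1 hD
    linarith

end Pool.Agent.K2B
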