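import Pool.Agent.K2B.Stmts

/-!
# NEAR: a point has at most two near neighbours
-/

set_option autoImplicit false

namespace Pool.Agent.K2B

theorem near_proof : Stmt_Near := by
  intro n b hb l
  have hsub : (Finset.univ.filter fun i => i ≠ l ∧ |b l - b i| < 2) ⊆
      (Finset.univ.filter fun i => b l < b i ∧ b i < b l + 2) ∪
        (Finset.univ.filter fun i => b i < b l ∧ b l < b i + 2) := by
    intro i hi
    rw [Finset.mem_filter] at hi
    obtain ⟨-, hil, hlt⟩ := hi
    have h1 := hb l i (fun h => hil h.symm)
    rw [abs_lt] at hlt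
    rw [Finset.mem_union, Finset.mem_filter, Finset.mem_filter]
    rcases le_or_gt (b i) (b l) with h | h
    · right
      refine ⟨Finset.mem_univ _, ?_, ?_⟩
      · rw [abs_of_nonneg (by linarith)] at h1
        linarith
      · linarith [hlt.2]
    · left
      exact ⟨Finset.mem_univ _, h, by linarith [hlt.1]⟩
  have c1 : (Finset.univ.filter fun i => b l < b i ∧ b i < b l + 2).card ≤ 1 := by
    rw [Finset.card_le_one]
    intro i hi j hj
    rw [Finset.mem_filter] at hi hj
    by_contra hne
    obtain ⟨-, hi1, hi2⟩ := hi
    obtain ⟨-, hj1, hj2⟩ := hj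
    have hil : i ≠ l := by rintro rfl; linarith
    have hjl : j ≠ l := by rintro rfl; linarith
    have h1 := hb i l hil
    have h2 := hb j l hjl
    have h3 := hb i j hne
    rw [abs_of_pos (by linarith)] at h1 h2
    rcases le_or_gt (b i) (b j) with h | h
    · rw [abs_of_nonpos (by linarith)] at h3
      linarith
    · rw [abs_of_pos (by linarith)] at h3
      linarith
  have c2 : (Finset.univ.filter fun i => b i < b l ∧ b l < b i + 2).card ≤ 1 := by
    rw [Finset.card_le_one]
    intro i hi j hj
    rw [Finset.mem_filter] at hi hj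
    by_contra hne
    obtain ⟨-, hi1, hi2⟩ := hi
    obtain ⟨-, hj1, hj2⟩ := hj
    have hil : l ≠ i := by rintro rfl; linarith
    have hjl : l ≠ j := by rintro rfl; linarith
    have h1 := hb l i hil
    have h2 := hb l j hjl
    have h3 := hb i j hne
    rw [abs_of_pos (by linarith)] at h1 h2
    rcases le_or_gt (b i) (b j) with h | h
    · rw [abs_of_nonpos (by linarith)] at h3
      linarith
    · rw [abs_of_pos (by linarith)] at h3
      linarith
  calc _ ≤ _ := Finset.card_le_card hsub
    _ ≤ _ := Finset.card_union_le _ _
    _ ≤ 2 := by omega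

end Pool.Agent.K2B
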