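import Pool.Agent.K2B.Stmts

/-!
# Module PERTB of squad K2B: the regulator of a function near `1`
-/

set_option autoImplicit false

namespace Pool.Agent.K2B

open Pool.Agent.BEK

namespace PertB

noncomputable section

theorem hasDerivAt_log_norm {h : ℝ → ℂ} (hh : Nz h) (θ : ℝ) :
    HasDerivAt (fun t => Real.log ‖h t‖) (deriv h θ / h θ).re θ := by
  have h1 : HasDerivAt h (deriv h θ) θ :=
    (hh.smooth.differentiable (by norm_num) θ).hasDerivAt
  have h2 := h1.norm_sq
  have hpos : 0 < ‖h θ‖ ^ 2 := by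
    have := norm_pos_iff.2 (hh.ne θ)
    positivity
  have h3 := (h2.log hpos.ne').const_mul (1 / 2 : ℝ)
  have h4 : (fun t => (1 / 2 : ℝ) * Real.log (‖h t‖ ^ 2)) = fun t => Real.log ‖h t‖ := by
    funext t
    rw [Real.log_pow]
    push_cast
    ring
  rw [h4] at h3
  refine h3.congr_deriv ?_
  rw [Complex.inner, Complex.div_re, Complex.sq_norm]
  have hn : Complex.normSq (h θ) ≠ 0 := by
    rw [Complex.normSq_eq_zero.ne]
    exact hh.ne θ
  simp only [Complex.mul_re, Complex.conj_re, Complex.conj_im]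
  field_simp
  ring

theorem mem_slit {z : ℂ} {δ : ℝ} (hδ : δ < 1) (hz : ‖z - 1‖ ≤ δ) : z ∈ Complex.slitPlane := by
  left
  have h1 := Complex.abs_re_le_norm (z - 1)
  have h2 := abs_le.1 h1
  simp only [Complex.sub_re, Complex.one_re] at h2
  linarith [h2.1]

theorem norm_log_le {z : ℂ} {δ : ℝ} (hδ : δ < 1) (hz : ‖z - 1‖ ≤ δ) :
    ‖Complex.log z‖ ≤ δ + δ ^ 2 / (1 - δ) / 2 := by
  have h1 := Complex.norm_log_one_add_le (z := z - 1) (hz.trans_lt hδ)
  have h2 : (1 : ℂ) + (z - 1) = z := by ring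
  rw [h2] at h1
  refine h1.trans ?_
  have h3 : ‖z - 1‖ ^ 2 ≤ δ ^ 2 := pow_le_pow_left₀ (norm_nonneg _) hz 2
  have h4 : (1 - ‖z - 1‖)⁻¹ ≤ (1 - δ)⁻¹ := inv_anti₀ (by linarith) (by linarith)
  have h5 : ‖z - 1‖ ^ 2 * (1 - ‖z - 1‖)⁻¹ ≤ δ ^ 2 * (1 - δ)⁻¹ :=
    mul_le_mul h3 h4 (inv_nonneg.2 (by linarith)) (by positivity)
  rw [div_eq_mul_inv (δ ^ 2)]
  linarith

end

end PertB

open PertB in
theorem pertB_proof : Stmt_PertB := by
  intro φ h δ M hφ hh hδ0 hδ hbd hM
  have hpi := Real.pi_pos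
  -- the logarithm of `φ`
  have hslit : ∀ θ, φ θ ∈ Complex.slitPlane := fun θ => mem_slit hδ (hbd θ)
  have hdφ : ∀ θ, HasDerivAt φ (deriv φ θ) θ := fun θ =>
    (hφ.smooth.differentiable (by norm_num) θ).hasDerivAt
  have hψ : ∀ θ, HasDerivAt (fun t => Complex.log (φ t)) (deriv φ θ / φ θ) θ := fun θ =>
    (hdφ θ).clog_real (hslit θ)
  have hψim : ∀ θ, HasDerivAt (fun t => (Complex.log (φ t)).im) (deriv φ θ / φ θ).im θ := by
    intro θ
    have := Complex.imCLM.hasFDerivAt.comp_hasDerivAt θ (hψ θ)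
    simpa [Function.comp_def] using this
  have cφ : Continuous fun θ => deriv φ θ / φ θ :=
    (hφ.smooth.continuous_deriv (by norm_num)).div hφ.smooth.continuous hφ.ne
  have ch : Continuous fun θ => deriv h θ / h θ :=
    (hh.smooth.continuous_deriv (by norm_num)).div hh.smooth.continuous hh.ne
  have clφ : Continuous fun θ => Complex.log (φ θ) :=
    continuous_iff_continuousAt.2 fun θ => (hψ θ).continuousAt
  have clh : Continuous fun θ => Real.log ‖h θ‖ :=
    continuous_iff_continuousAt.2 fun θ => (hasDerivAt_log_norm hh θ).continuousAt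
  -- integration by parts
  have hparts : ∫ θ in (0 : ℝ)..2 * Real.pi, Real.log ‖h θ‖ * (deriv φ θ / φ θ).im =
      - ∫ θ in (0 : ℝ)..2 * Real.pi, (deriv h θ / h θ).re * (Complex.log (φ θ)).im := by
    have h1 := intervalIntegral.integral_mul_deriv_eq_deriv_mul
      (u := fun t => Real.log ‖h t‖) (v := fun t => (Complex.log (φ t)).im)
      (u' := fun t => (deriv h t / h t).re) (v' := fun t => (deriv φ t / φ t).im)
      (a := 0) (b := 2 * Real.pi)
      (fun x _ => hasDerivAt_log_norm hh x) (fun x _ => hψim x)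
      ((Complex.continuous_re.comp ch).intervalIntegrable _ _)
      ((Complex.continuous_im.comp cφ).intervalIntegrable _ _)
    rw [h1]
    have e1 : h (2 * Real.pi) = h 0 := by
      have := hh.periodic 0
      rwa [zero_add] at this
    have e2 : φ (2 * Real.pi) = φ 0 := by
      have := hφ.periodic 0
      rwa [zero_add] at this
    rw [e1, e2]
    ring
  have hreg : regz φ h = 1 / (2 * Real.pi) * ∫ θ in (0 : ℝ)..2 * Real.pi,
      (Complex.log (φ θ) * (deriv h θ / h θ)).im := by
    unfold regz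
    congr 1
    have i1 : IntervalIntegrable (fun θ => Real.log ‖φ θ‖ * (deriv h θ / h θ).im)
        MeasureTheory.volume 0 (2 * Real.pi) := by
      have : Continuous fun θ => Real.log ‖φ θ‖ * (deriv h θ / h θ).im := by
        refine Continuous.mul ?_ (Complex.continuous_im.comp ch)
        exact continuous_iff_continuousAt.2 fun θ => (hasDerivAt_log_norm hφ θ).continuousAt
      exact this.intervalIntegrable _ _
    have i2 : IntervalIntegrable (fun θ => Real.log ‖h θ‖ * (deriv φ θ / φ θ).im)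
        MeasureTheory.volume 0 (2 * Real.pi) :=
      (clh.mul (Complex.continuous_im.comp cφ)).intervalIntegrable _ _
    have i3 : IntervalIntegrable (fun θ => (deriv h θ / h θ).re * (Complex.log (φ θ)).im)
        MeasureTheory.volume 0 (2 * Real.pi) :=
      ((Complex.continuous_re.comp ch).mul (Complex.continuous_im.comp clφ)).intervalIntegrable _ _
    simp only [darg]
    rw [intervalIntegral.integral_sub i1 i2, hparts, sub_neg_eq_add,
      ← intervalIntegral.integral_add i1 i3]
    congr 1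
    funext θ
    rw [Complex.mul_im, Complex.log_re]
    ring
  rw [hreg]
  have hbound : ∀ θ ∈ Set.uIoc 0 (2 * Real.pi),
      ‖(Complex.log (φ θ) * (deriv h θ / h θ)).im‖ ≤ (δ + δ ^ 2 / (1 - δ) / 2) * M := by
    intro θ _
    rw [Real.norm_eq_abs]
    refine (Complex.abs_im_le_norm _).trans ?_
    rw [norm_mul]
    have h0 : 0 ≤ δ + δ ^ 2 / (1 - δ) / 2 := by
      have : 0 < 1 - δ := by linarith
      positivity
    exact mul_le_mul (norm_log_le hδ (hbd θ)) (hM θ) (norm_nonneg _) h0
  have h2 := intervalIntegral.norm_integral_le_of_norm_le_const hbound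
  rw [Real.norm_eq_abs] at h2
  rw [abs_mul, abs_of_pos (by positivity : (0 : ℝ) < 1 / (2 * Real.pi))]
  rw [sub_zero, abs_of_pos (by positivity : (0 : ℝ) < 2 * Real.pi)] at h2
  calc 1 / (2 * Real.pi) * |∫ θ in (0 : ℝ)..2 * Real.pi,
        (Complex.log (φ θ) * (deriv h θ / h θ)).im|
      ≤ 1 / (2 * Real.pi) * ((δ + δ ^ 2 / (1 - δ) / 2) * M * (2 * Real.pi)) :=
        mul_le_mul_of_nonneg_left h2 (by positivity)
    _ = (δ + δ ^ 2 / (1 - δ) / 2) * M := by field_simp

end Pool.Agent.K2B
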