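import Pool.Agent.K2B.Stmts

/-!
# Module PHI of squad K2B: the branch `y = P φ` of `y² - P y + 1 = 0`
-/

set_option autoImplicit false

namespace Pool.Agent.K2B

open Pool.Agent.BEK

namespace Phi

noncomputable section

/-- the small quantity `4 / P²` -/
def w (P : ℂ) : ℂ := 4 / P ^ 2

/-- the square root of `1 - w` with positive real part -/
def s (P : ℂ) : ℂ := Complex.exp (Complex.log (1 - w P) / 2)

theorem norm_w_le {P : ℂ} {m : ℝ} (hm : 2 < m) (h : m ≤ ‖P‖) : ‖w P‖ ≤ 4 / m ^ 2 := by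
  unfold w
  rw [norm_div, norm_pow]
  have h4 : ‖(4 : ℂ)‖ = 4 := by simp
  rw [h4]
  apply div_le_div_of_nonneg_left (by norm_num) (by positivity)
  exact pow_le_pow_left₀ (by linarith) h 2

theorem four_div_lt {m : ℝ} (hm : 2 < m) : 4 / m ^ 2 < 1 := by
  rw [div_lt_one (by positivity)]
  nlinarith

theorem mem_slit {z : ℂ} (hz : ‖z‖ < 1) : 1 - z ∈ Complex.slitPlane := by
  left
  have h1 := Complex.abs_re_le_norm z
  have h2 := abs_le.1 h1
  simp only [Complex.sub_re, Complex.one_re]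
  linarith [h2.2]

theorem s_sq {P : ℂ} (h : ‖w P‖ < 1) : s P ^ 2 = 1 - w P := by
  unfold s
  rw [← Complex.exp_nat_mul]
  have h0 : (1 : ℂ) - w P ≠ 0 := Complex.slitPlane_ne_zero (mem_slit h)
  have : ((2 : ℕ) : ℂ) * (Complex.log (1 - w P) / 2) = Complex.log (1 - w P) := by
    push_cast; ring
  rw [this, Complex.exp_log h0]

theorem s_re_nonneg (P : ℂ) : 0 ≤ (s P).re := by
  unfold s
  rw [Complex.exp_re]
  apply mul_nonneg (Real.exp_pos _).le
  have h2 : (Complex.log (1 - w P) / 2).im = (1 - w P).arg / 2 := by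
    have : Complex.log (1 - w P) / 2 = Complex.log (1 - w P) / ((2 : ℝ) : ℂ) := by norm_num
    rw [this, Complex.div_ofReal_im, Complex.log_im]
  rw [h2]
  apply Real.cos_nonneg_of_mem_Icc
  constructor
  · linarith [Complex.neg_pi_lt_arg (1 - w P)]
  · linarith [Complex.arg_le_pi (1 - w P)]

theorem s_re_ge {P : ℂ} (h : ‖w P‖ < 1) : √(1 - ‖w P‖) ≤ (s P).re := by
  have h1 := s_sq h
  have h2 := s_re_nonneg P
  apply Real.sqrt_le_iff.2
  refine ⟨h2, ?_⟩
  have h3 : (s P ^ 2).re = (s P).re ^ 2 - (s P).im ^ 2 := by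
    rw [pow_two, Complex.mul_re]; ring
  have h4 : ‖s P‖ ^ 2 = (s P).re ^ 2 + (s P).im ^ 2 := by
    rw [Complex.sq_norm, Complex.normSq_apply]; ring
  have h5 : ‖s P‖ ^ 2 = ‖1 - w P‖ := by rw [← norm_pow, h1]
  have h6 : (1 - w P).re ≤ ‖1 - w P‖ := Complex.re_le_norm _
  have h7 : (w P).re ≤ ‖w P‖ := Complex.re_le_norm _
  rw [h1] at h3
  simp only [Complex.sub_re, Complex.one_re] at h3 h6
  nlinarith

theorem norm_s_sub {P : ℂ} {m : ℝ} (hm : 2 < m) (hP : m ≤ ‖P‖) :
    ‖(1 + s P) / 2 - 1‖ ≤ dl m := by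
  have hw := norm_w_le hm hP
  have hlt : ‖w P‖ < 1 := hw.trans_lt (four_div_lt hm)
  have h1 := s_sq hlt
  have h2 := s_re_ge hlt
  set t := √(1 - ‖w P‖) with ht
  have ht0 : 0 ≤ t := Real.sqrt_nonneg _
  have ht2 : t ^ 2 = 1 - ‖w P‖ := Real.sq_sqrt (by linarith)
  have h3 : (1 - s P) * (1 + s P) = w P := by linear_combination -h1
  have h4 : ‖1 - s P‖ * ‖1 + s P‖ = ‖w P‖ := by rw [← norm_mul, h3]
  have h5 : 1 + t ≤ ‖1 + s P‖ := by
    refine le_trans ?_ (Complex.re_le_norm _)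
    simp only [Complex.add_re, Complex.one_re]
    linarith
  have h6 : ‖1 - s P‖ ≤ 1 - t := by
    have h7 : ‖1 - s P‖ * (1 + t) ≤ (1 - t) * (1 + t) := by
      calc ‖1 - s P‖ * (1 + t) ≤ ‖1 - s P‖ * ‖1 + s P‖ :=
            mul_le_mul_of_nonneg_left h5 (norm_nonneg _)
        _ = ‖w P‖ := h4
        _ = (1 - t) * (1 + t) := by linear_combination ht2
    exact le_of_mul_le_mul_right h7 (by linarith)
  have h8 : √(1 - 4 / m ^ 2) ≤ t := Real.sqrt_le_sqrt (by linarith)
  have h9 : (1 + s P) / 2 - 1 = -((1 - s P) / 2) := by ring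
  rw [h9, norm_neg, norm_div]
  have : ‖(2 : ℂ)‖ = 2 := by simp
  rw [this]
  unfold dl
  linarith

theorem eqn {P : ℂ} {m : ℝ} (hm : 2 < m) (hP : m ≤ ‖P‖) :
    (P * ((1 + s P) / 2)) ^ 2 - P * (P * ((1 + s P) / 2)) + 1 = 0 := by
  have hw := norm_w_le hm hP
  have hlt : ‖w P‖ < 1 := hw.trans_lt (four_div_lt hm)
  have h1 := s_sq hlt
  have hP0 : P ≠ 0 := by
    intro h
    rw [h, norm_zero] at hP
    linarith
  have h2 : P ^ 2 * w P = 4 := by
    unfold w
    field_simp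
  linear_combination (P ^ 2 / 4) * h1 - (1 / 4) * h2

theorem s_conj {P : ℂ} (h : ‖w P‖ < 1) :
    s ((starRingEnd ℂ) P) = (starRingEnd ℂ) (s P) := by
  have hw : w ((starRingEnd ℂ) P) = (starRingEnd ℂ) (w P) := by
    unfold w
    rw [map_div₀, map_pow]
    congr 1
    exact (Complex.conj_ofNat 4).symm
  unfold s
  rw [← Complex.exp_conj, hw]
  congr 1
  rw [map_div₀, ← Complex.log_conj _ (by
    have := mem_slit h
    exact fun h' => by
      rw [Complex.mem_slitPlane_iff_arg] at this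
      exact this.1 h')]
  rw [map_sub, map_one]
  congr 1
  exact (Complex.conj_ofNat 2).symm

end

end Phi

open Phi in
theorem phi_proof : Stmt_Phi := by
  intro P m hm hP hper hbd
  have hlt : ∀ θ, ‖w (P θ)‖ < 1 := fun θ =>
    (norm_w_le hm (hbd θ)).trans_lt (four_div_lt hm)
  have hne : ∀ θ, P θ ≠ 0 := by
    intro θ h
    have := hbd θ
    rw [h, norm_zero] at this
    linarith
  refine ⟨fun θ => (1 + s (P θ)) / 2, ?_, ?_, ?_, ?_, ?_⟩
  · have h1 : ContDiff ℝ 1 fun θ => 1 - w (P θ) := by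
      have h0 : ContDiff ℝ 1 fun θ => (P θ ^ 2)⁻¹ := (hP.pow 2).inv fun θ => pow_ne_zero 2 (hne θ)
      have h00 : ContDiff ℝ 1 fun θ => w (P θ) := by
        simp only [w, div_eq_mul_inv]
        exact contDiff_const.mul h0
      exact contDiff_const.sub h00
    have h2 : ContDiff ℝ 1 fun θ => Complex.log (1 - w (P θ)) := by
      rw [contDiff_iff_contDiffAt]
      intro θ
      have h3 : ContDiffAt ℝ 1 Complex.log (1 - w (P θ)) :=
        (Complex.contDiffAt_log (mem_slit (hlt θ))).restrict_scalars ℝ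
      exact h3.comp θ h1.contDiffAt
    have h3 : ContDiff ℝ 1 fun θ => s (P θ) := by
      unfold s
      exact (h2.div_const 2).cexp
    exact (contDiff_const.add h3).div_const 2
  · intro θ
    simp only [hper]
  · intro θ
    exact norm_s_sub hm (hbd θ)
  · intro θ
    exact eqn hm (hbd θ)
  · intro hc θ
    simp only [hc]
    rw [s_conj (hlt θ), map_div₀, map_add, map_one]
    congr 1
    exact (Complex.conj_ofNat 2).symm

end Pool.Agent.K2B
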