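import Pool.Agent.K2B.Stmts

/-! # REALC -/

set_option autoImplicit false

namespace Pool.Agent.K2B

theorem realc_proof : Stmt_RealC := by
  intro n b l r m hr hm hA hB x hx
  classical
  -- the angle
  set c : ℝ := (x - (b l : ℂ)).re / r with hc
  have hnorm : (x - (b l : ℂ)).re ^ 2 + (x - (b l : ℂ)).im ^ 2 = r ^ 2 := by
    rw [← hx, Complex.sq_norm, Complex.normSq_apply]
    ring
  have hcr : (x - (b l : ℂ)).re = c * r := by
    rw [hc, div_mul_cancel₀ _ hr.ne']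
  have hc2 : c ^ 2 ≤ 1 := by
    have h1 : (c * r) ^ 2 ≤ r ^ 2 := by
      rw [← hcr, ← hnorm]
      nlinarith [sq_nonneg (x - (b l : ℂ)).im]
    have h2 : (c * r) ^ 2 = c ^ 2 * r ^ 2 := by ring
    rw [h2] at h1
    have h3 : 0 < r ^ 2 := by positivity
    nlinarith
  have hc1 : -1 ≤ c ∧ c ≤ 1 := abs_le.mp ((sq_le_one_iff_abs_le_one c).mp hc2)
  set lam : ℝ := (1 + c) / 2 with hlam
  have hl0 : 0 ≤ lam := by rw [hlam]; linarith [hc1.1]
  have hl1 : 0 ≤ 1 - lam := by rw [hlam]; linarith [hc1.2]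
  -- the square of the distance to a root
  have hsq : ∀ i, ‖x - (b i : ℂ)‖ ^ 2 =
      lam * (b l + r - b i) ^ 2 + (1 - lam) * (b l - r - b i) ^ 2 := by
    intro i
    rw [Complex.sq_norm, Complex.normSq_apply]
    have h1 : (x - (b i : ℂ)).re = c * r + (b l - b i) := by
      rw [← hcr]
      simp
    have h2 : (x - (b i : ℂ)).im = (x - (b l : ℂ)).im := by simp
    rw [h1, h2]
    have h3 : (x - (b l : ℂ)).im * (x - (b l : ℂ)).im = r ^ 2 - (c * r) ^ 2 := by
      rw [← hnorm, hcr]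
      ring
    rw [h3, hlam]
    ring
  have hAG : ∀ i, ((b l + r - b i) ^ 2) ^ lam * ((b l - r - b i) ^ 2) ^ (1 - lam) ≤
      ‖x - (b i : ℂ)‖ ^ 2 := by
    intro i
    rw [hsq]
    exact Real.geom_mean_le_arith_mean2_weighted hl0 hl1 (sq_nonneg _) (sq_nonneg _) (by ring)
  have hprod : ∏ i, (((b l + r - b i) ^ 2) ^ lam * ((b l - r - b i) ^ 2) ^ (1 - lam)) ≤
      ∏ i, ‖x - (b i : ℂ)‖ ^ 2 := by
    apply Finset.prod_le_prod
    · intro i _
      exact mul_nonneg (Real.rpow_nonneg (sq_nonneg _) _) (Real.rpow_nonneg (sq_nonneg _) _)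
    · intro i _
      exact hAG i
  rw [Finset.prod_mul_distrib, Real.finsetProd_rpow _ _ (fun i _ => sq_nonneg _),
    Real.finsetProd_rpow _ _ (fun i _ => sq_nonneg _), Finset.prod_pow, Finset.prod_pow,
    Finset.prod_pow] at hprod
  have h1 : m ^ 2 ≤ (∏ i, (b l + r - b i)) ^ 2 := by
    rw [← sq_abs (∏ i, (b l + r - b i))]
    exact pow_le_pow_left₀ hm.le hA 2
  have h2 : m ^ 2 ≤ (∏ i, (b l - r - b i)) ^ 2 := by
    rw [← sq_abs (∏ i, (b l - r - b i))]
    exact pow_le_pow_left₀ hm.le hB 2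
  have h3 : m ^ 2 = (m ^ 2) ^ lam * (m ^ 2) ^ (1 - lam) := by
    rw [← Real.rpow_add (by positivity)]
    simp
  have h4 : m ^ 2 ≤ (∏ i, ‖x - (b i : ℂ)‖) ^ 2 := by
    refine le_trans ?_ hprod
    rw [h3]
    apply mul_le_mul
    · exact Real.rpow_le_rpow (by positivity) h1 hl0
    · exact Real.rpow_le_rpow (by positivity) h2 hl1
    · positivity
    · positivity
  rw [norm_prod]
  exact le_of_sq_le_sq h4 (Finset.prod_nonneg fun i _ => norm_nonneg _)

end Pool.Agent.K2B
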