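import Pool.Agent.K2B.Stmts

/-!
# REGMAP: the regulator along a loop is a linear map on `K₂(F) ⊗ ℚ`
-/

set_option autoImplicit false

namespace Pool.Agent.K2B

open Pool.Agent.BEK

theorem nz_ev {F : Type} [Field F] (γ : Loop F) (a : Fˣ) : Nz (fun θ => γ.ev θ a) where
  smooth := γ.smooth a
  periodic := fun θ => by rw [γ.periodic θ]
  ne := fun θ => by
    rw [Ne, map_eq_zero]
    exact a.ne_zero

theorem regmap_proof (hR : Stmt_Reg) (hD : Pool.Agent.BEK.Stmt_Dilog) : Stmt_RegMap := by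
  intro F _ γ
  obtain ⟨r1, r2, -, -, -, -⟩ := hR
  refine ⟨liftK (fun a b => regz (fun θ => γ.ev θ a) (fun θ => γ.ev θ b)) ?_ ?_ ?_, ?_⟩
  · intro a a' b
    have h := r1 _ _ _ (nz_ev γ a) (nz_ev γ a') (nz_ev γ b)
    rw [← h]
    congr 1
    funext θ
    rw [Units.val_mul, map_mul]
  · intro a b b'
    have h := r2 _ _ _ (nz_ev γ a) (nz_ev γ b) (nz_ev γ b')
    rw [← h]
    congr 1
    funext θ
    rw [Units.val_mul, map_mul]
  · intro a b hab
    have hb : ∀ θ, γ.ev θ b = 1 - γ.ev θ a := by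
      intro θ
      have h1 : (b : F) = 1 - a := by linear_combination hab
      rw [h1, map_sub, map_one]
    have h := hD (fun θ => γ.ev θ a) (γ.smooth a) (nz_ev γ a).periodic (nz_ev γ a).ne ?_
    · rw [← h]
      congr 1
      funext θ
      exact hb θ
    · intro θ h1
      have h2 := (nz_ev γ b).ne θ
      apply h2
      show γ.ev θ b = 0
      rw [hb θ]
      have h3 : γ.ev θ a = 1 := h1
      rw [h3, sub_self]
  · intro a b
    exact liftK_usymb _ _ _ _ a b

end Pool.Agent.K2B
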