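import Pool.Agent.K2B.Stmts

/-! # ROWS: rows of an injective matrix which form an invertible square matrix -/

set_option autoImplicit false

namespace Pool.Agent.K2B

theorem rows_proof : Stmt_Rows := by
  intro n g N hN
  classical
  -- the rows span the whole space
  have hspan : Submodule.span ℝ (Set.range N) = ⊤ := by
    by_contra hne
    obtain ⟨f, hf0, hf⟩ := Submodule.exists_le_ker_of_lt_top _ (lt_top_iff_ne_top.mpr hne)
    apply hf0
    have h1 : (fun j => f (Pi.single j 1)) = (0 : Fin g → ℝ) := by
      apply hN
      intro l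
      have h2 : f (N l) = 0 := hf (Submodule.subset_span ⟨l, rfl⟩)
      rw [← h2]
      conv_rhs => rw [pi_eq_sum_univ' (N l), map_sum]
      apply Finset.sum_congr rfl
      intro j _
      rw [map_smul, smul_eq_mul]
    apply LinearMap.pi_ext'
    intro j
    ext
    simpa using congrFun h1 j
  obtain ⟨f, hf1, hf2, hf3⟩ := Submodule.exists_fun_fin_finrank_span_eq ℝ (Set.range N)
  have hr : Module.finrank ℝ (Submodule.span ℝ (Set.range N)) = g := by
    rw [hspan, finrank_top, Module.finrank_fin_fun]
  choose t ht using hf1
  let e : Fin g ≃ Fin (Module.finrank ℝ (Submodule.span ℝ (Set.range N))) := finCongr hr.symm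
  refine ⟨fun l => t (e l), ?_⟩
  have h3 : LinearIndependent ℝ (fun l : Fin g => N (t (e l))) := by
    have h4 := hf3.comp e e.injective
    have h5 : (f ∘ e) = fun l : Fin g => N (t (e l)) := by
      funext l
      exact (ht (e l)).symm
    rwa [h5] at h4
  have h6 : IsUnit (Matrix.of fun l j : Fin g => N (t (e l)) j) :=
    Matrix.linearIndependent_rows_iff_isUnit.mp h3
  exact ((Matrix.isUnit_iff_isUnit_det _).mp h6).ne_zero

end Pool.Agent.K2B
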