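import Pool.Agent.K2B.Stmts

/-!
# REG: rules for the regulator integral and the winding number
-/

set_option autoImplicit false

namespace Pool.Agent.K2B

open Pool.Agent.BEK

namespace RegX

theorem diffAt {f : ℝ → ℂ} (hf : Nz f) (θ : ℝ) : DifferentiableAt ℝ f θ :=
  (hf.smooth.differentiable (by norm_num)) θ

theorem darg_mul {f g : ℝ → ℂ} (hf : Nz f) (hg : Nz g) (θ : ℝ) :
    darg (fun θ => f θ * g θ) θ = darg f θ + darg g θ := by
  unfold darg
  have e : (fun θ => f θ * g θ) = f * g := rfl
  rw [e, deriv_mul (diffAt hf θ) (diffAt hg θ), ← Complex.add_im, Pi.mul_apply]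
  congr 1
  have h1 := hf.ne θ
  have h2 := hg.ne θ
  field_simp

theorem cont_darg {f : ℝ → ℂ} (hf : Nz f) : Continuous (darg f) := by
  unfold darg
  refine Complex.continuous_im.comp ?_
  exact (hf.smooth.continuous_deriv le_rfl).div hf.smooth.continuous hf.ne

theorem cont_log {f : ℝ → ℂ} (hf : Nz f) : Continuous fun θ => Real.log ‖f θ‖ := by
  refine hf.smooth.continuous.norm.log ?_
  intro θ
  exact norm_ne_zero_iff.mpr (hf.ne θ)

theorem cont_int {f g : ℝ → ℂ} (hf : Nz f) (hg : Nz g) :
    Continuous fun θ => Real.log ‖f θ‖ * darg g θ - Real.log ‖g θ‖ * darg f θ :=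
  ((cont_log hf).mul (cont_darg hg)).sub ((cont_log hg).mul (cont_darg hf))

theorem mul_left {f f' g : ℝ → ℂ} (hf : Nz f) (hf' : Nz f') (hg : Nz g) :
    regz (fun θ => f θ * f' θ) g = regz f g + regz f' g := by
  unfold regz
  rw [← mul_add, ← intervalIntegral.integral_add]
  · congr 1
    apply intervalIntegral.integral_congr
    intro θ _
    simp only
    rw [darg_mul hf hf', norm_mul, Real.log_mul (norm_ne_zero_iff.mpr (hf.ne θ))
      (norm_ne_zero_iff.mpr (hf'.ne θ))]
    ring
  · exact (cont_int hf hg).intervalIntegrable _ _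
  · exact (cont_int hf' hg).intervalIntegrable _ _

theorem symm (f g : ℝ → ℂ) : regz g f = - regz f g := by
  unfold regz
  rw [← mul_neg, ← intervalIntegral.integral_neg]
  congr 1
  apply intervalIntegral.integral_congr
  intro θ _
  simp only
  ring

theorem darg_const (c : ℂ) (θ : ℝ) : darg (fun _ => c) θ = 0 := by
  unfold darg
  rw [deriv_const, zero_div, Complex.zero_im]

end RegX

theorem reg_proof : Stmt_Reg := by
  refine ⟨fun f f' g hf hf' hg => RegX.mul_left hf hf' hg, ?_, RegX.symm, ?_, ?_, ?_⟩
  · intro f g g' hf hg hg'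
    rw [RegX.symm (fun θ => g θ * g' θ) f, RegX.mul_left hg hg' hf, RegX.symm g f, RegX.symm g' f]
    ring
  · intro c g
    unfold regz wind
    have e : ∀ θ : ℝ, Real.log ‖c‖ * darg g θ - Real.log ‖g θ‖ * darg (fun _ => c) θ =
        Real.log ‖c‖ * darg g θ := by
      intro θ
      rw [RegX.darg_const, mul_zero, sub_zero]
    simp only [e]
    rw [intervalIntegral.integral_const_mul]
    ring
  · intro f g hf hg
    unfold wind
    rw [← mul_add, ← intervalIntegral.integral_add]
    · congr 1
      apply intervalIntegral.integral_congr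
      intro θ _
      exact RegX.darg_mul hf hg θ
    · exact (RegX.cont_darg hf).intervalIntegrable _ _
    · exact (RegX.cont_darg hg).intervalIntegrable _ _
  · intro c
    unfold wind
    simp only [RegX.darg_const]
    simp

end Pool.Agent.K2B
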