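import Pool.Agent.K2B.Stmts

/-!
# SELF: the regulator of `{y, y + 1/y}`
-/

set_option autoImplicit false

namespace Pool.Agent.K2B

open Pool.Agent.BEK

theorem self_proof (hR : Stmt_Reg) (hD : Pool.Agent.BEK.Stmt_Dilog) : Stmt_Self := by
  intro Y P hY hP hYP
  obtain ⟨r1, r2, r3, r4, -, r6⟩ := hR
  -- `P Y = 1 + Y²`
  have hPY : ∀ θ, P θ * Y θ = 1 + Y θ ^ 2 := fun θ => by linear_combination -hYP θ
  have hnzPY : Nz (fun θ => P θ * Y θ) :=
    ⟨hP.smooth.mul hY.smooth, fun θ => by simp only [hP.periodic, hY.periodic],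
      fun θ => mul_ne_zero (hP.ne θ) (hY.ne θ)⟩
  have hnzYY : Nz (fun θ => Y θ * Y θ) :=
    ⟨hY.smooth.mul hY.smooth, fun θ => by simp only [hY.periodic],
      fun θ => mul_ne_zero (hY.ne θ) (hY.ne θ)⟩
  have hnzm : Nz (fun _ : ℝ => (-1 : ℂ)) :=
    ⟨contDiff_const, fun _ => rfl, fun _ => by norm_num⟩
  -- `regz Y Y = 0`
  have h1 : regz Y Y = 0 := by
    have := r3 Y Y
    linarith
  -- `regz (-1) g = 0`
  have h2 : regz (fun _ => (-1 : ℂ)) (fun θ => P θ * Y θ) = 0 := by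
    rw [r4, norm_neg, norm_one, Real.log_one, zero_mul]
  -- Steinberg
  have h3 : regz (fun θ => -1 * (Y θ * Y θ)) (fun θ => 1 - (-1 * (Y θ * Y θ))) = 0 := by
    refine hD _ (contDiff_const.mul (hY.smooth.mul hY.smooth)) (fun θ => by simp only [hY.periodic])
      (fun θ => mul_ne_zero (by norm_num) (mul_ne_zero (hY.ne θ) (hY.ne θ))) ?_
    intro θ h
    have h4 := hnzPY.ne θ
    apply h4
    show P θ * Y θ = 0
    rw [hPY θ]
    linear_combination -h
  have h4 : (fun θ => 1 - (-1 * (Y θ * Y θ))) = fun θ => P θ * Y θ := by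
    funext θ
    rw [hPY θ]
    ring
  rw [h4, r1 _ _ _ hnzm hnzYY hnzPY, h2, zero_add, r1 _ _ _ hY hY hnzPY, r2 _ _ _ hY hP hY, h1,
    add_zero] at h3
  linarith

end Pool.Agent.K2B
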