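import Pool.Agent.K2B.Stmts

/-! # SQF -/

set_option autoImplicit false

open Polynomial

namespace Pool.Agent.K2B

theorem sqf_proof : Stmt_Sqf := by
  intro k _ g α σ h
  classical
  have hP : (poly α).Monic := by
    unfold poly
    exact monic_prod_of_monic _ _ fun i _ => monic_X_sub_C _
  have hdeg : (poly α).natDegree = g + 1 := by
    unfold poly
    rw [natDegree_prod_of_monic _ _ fun i _ => monic_X_sub_C _]
    simp
  have h4 : (4 : k[X]) = C 4 := (map_ofNat C 4).symm
  constructor
  · -- separability
    have key : ∀ c : ℂ, ‖c‖ ≤ 2 → ∃ z : Fin (g + 1) → ℂ, Function.Injective z ∧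
        (poly α).map σ - C c = ∏ l, (X - C (z l)) ∧
        ∀ l, ((poly α).map σ).eval (z l) = c := by
      intro c hc
      obtain ⟨z, hz, hz'⟩ := h c hc
      have hev : ∀ l, ((poly α).map σ).eval (z l) = c := by
        intro l
        rw [← hz' l]
        unfold poly
        rw [Polynomial.map_prod, eval_prod]
        simp
      refine ⟨z, hz, ?_, hev⟩
      have hmon : ((poly α).map σ - C c).Monic := by
        apply (hP.map σ).sub_of_left
        rw [degree_map, degree_eq_natDegree hP.ne_zero, hdeg]
        refine lt_of_le_of_lt degree_C_le ?_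
        exact_mod_cast Nat.succ_pos g
      have hnd : ((poly α).map σ - C c).natDegree = g + 1 := by
        rw [natDegree_sub_C, natDegree_map, hdeg]
      have hdvd : ∏ l, (X - C (z l)) ∣ (poly α).map σ - C c := by
        apply Finset.prod_dvd_of_coprime
        · intro i _ j _ hij
          exact isCoprime_X_sub_C_of_isUnit_sub
            (sub_ne_zero.mpr (fun h => hij (hz h))).isUnit
        · intro l _
          rw [dvd_iff_isRoot, IsRoot.def, eval_sub, eval_C, hev, sub_self]
      have hm2 : (∏ l, (X - C (z l))).Monic := monic_prod_of_monic _ _ fun i _ => monic_X_sub_C _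
      refine eq_of_monic_of_dvd_of_natDegree_le hm2 hmon hdvd ?_
      rw [hnd, natDegree_prod_of_monic _ _ fun i _ => monic_X_sub_C _]
      simp
    obtain ⟨z, hz, hz1, hz2⟩ := key 2 (by simp)
    obtain ⟨w, hw, hw1, hw2⟩ := key (-2) (by simp)
    have hsep : ((poly α ^ 2 - 4).map σ).Separable := by
      have h5 : (poly α ^ 2 - 4).map σ = ∏ a : Fin (g + 1) ⊕ Fin (g + 1),
          (X - C (Sum.elim z w a)) := by
        rw [Fintype.prod_sum_type]
        simp only [Sum.elim_inl, Sum.elim_inr]
        rw [← hz1, ← hw1, h4, Polynomial.map_sub, Polynomial.map_pow, map_C]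
        have h6 : (σ 4 : ℂ) = 4 := map_ofNat σ 4
        rw [h6]
        have h7 : (C (4 : ℂ)) = C 2 * C 2 := by rw [← C_mul]; norm_num
        rw [h7, C_neg]
        ring
      rw [h5, separable_prod_X_sub_C_iff]
      rintro (a | a) (b | b) hab
      · exact congrArg Sum.inl (hz hab)
      · exfalso
        have h8 := hz2 a
        simp only [Sum.elim_inl, Sum.elim_inr] at hab
        rw [hab, hw2 b] at h8
        norm_num at h8
      · exfalso
        have h8 := hz2 b
        simp only [Sum.elim_inl, Sum.elim_inr] at hab
        rw [← hab, hw2 a] at h8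
        norm_num at h8
      · exact congrArg Sum.inr (hw hab)
    exact ((separable_map σ).mp hsep).squarefree
  · rw [h4, natDegree_sub_C, natDegree_pow, hdeg]
    ring

end Pool.Agent.K2B
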