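import Pool.Agent.K2B.Defs
import Pool.Agent.BEK.Stmts

/-!
# Exact statements of the modules of squad K2B (MP_0a9c3b_nt, second hand-in)
Text: /team-store/MP_0a9c3b_K2B.md
-/

set_option autoImplicit false

open Polynomial

namespace Pool.Agent.K2B

open Pool.Agent.BEK

noncomputable section

/-! ## Algebra -/

/-- INTEG: the tame symbols of `{y, x - α_j}` are roots of unity. -/
def Stmt_Integ : Prop :=
  ∀ (k F : Type) [Field k] [Field F] (c : k →+* F) (g : ℕ) (α : Fin (g + 1) → k) (x y : F),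
    (∀ i, IsIntegral ℤ (α i)) → (∀ i, x ≠ c (α i)) →
    y ^ 2 - (∏ i, (x - c (α i))) * y + 1 = 0 →
    ∀ (v : DV F) (j : Fin (g + 1)) (u w : Fˣ), (u : F) = y → (w : F) = x - c (α j) →
      v.tame u w ^ 4 = 1

/-- OPEN: every value `c` with `‖c‖ ≤ 2` is taken `n` times. -/
def Stmt_Open : Prop :=
  ∀ (n : ℕ) (a : Fin n → ℂ) (r : ℝ), 0 < r → (∀ i j, i ≠ j → 2 * r ≤ ‖a i - a j‖) →
    (∀ l x, ‖x - a l‖ = r → 2 < ‖∏ i, (x - a i)‖) → ∀ c : ℂ, ‖c‖ ≤ 2 →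
    ∃ z : Fin n → ℂ, Function.Injective z ∧ ∀ l, ∏ i, (z l - a i) = c

/-- SQF: `P² - 4` is squarefree. -/
def Stmt_Sqf : Prop :=
  ∀ (k : Type) [Field k] (g : ℕ) (α : Fin (g + 1) → k) (σ : k →+* ℂ),
    (∀ c : ℂ, ‖c‖ ≤ 2 → ∃ z : Fin (g + 1) → ℂ, Function.Injective z ∧
      ∀ l, ∏ i, (z l - σ (α i)) = c) →
    Squarefree (poly α ^ 2 - 4) ∧ (poly α ^ 2 - 4).natDegree = 2 * g + 2

/-! ## Plane geometry -/

/-- on disjoint circles of radius `r` around the roots the polynomial is at least `m` -/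
structure Sys {g : ℕ} (a : Fin (g + 1) → ℂ) (r m : ℝ) : Prop where
  pos : 0 < r
  sep : ∀ i j, i ≠ j → 2 * r ≤ ‖a i - a j‖
  big : ∀ l x, ‖x - a l‖ = r → m ≤ ‖∏ i, (x - a i)‖

/-- GEOA: mutual distances at least `3`. -/
def Stmt_GeoA : Prop :=
  ∀ (g : ℕ) (a : Fin (g + 1) → ℂ), 1 ≤ g → (∀ i j, i ≠ j → 3 ≤ ‖a i - a j‖) →
    ∀ r : ℝ, 7 / 5 < r → r < 3 / 2 → Sys a r (11 / 5)

/-- REALC: for real roots it is enough to look at the real points of the circles. -/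
def Stmt_RealC : Prop :=
  ∀ (n : ℕ) (b : Fin n → ℝ) (l : Fin n) (r m : ℝ), 0 < r → 0 < m →
    m ≤ |∏ i, (b l + r - b i)| → m ≤ |∏ i, (b l - r - b i)| →
    ∀ x : ℂ, ‖x - (b l : ℂ)‖ = r → m ≤ ‖∏ i, (x - (b i : ℂ))‖

/-- GEOB: real points with mutual distances at least `2` (product at the real points). -/
def Stmt_GeoB : Prop :=
  ∀ (n : ℕ) (b : Fin n → ℝ), 3 ≤ n → (∀ i j, i ≠ j → 2 ≤ |b i - b j|) →
    ∀ r : ℝ, 19 / 20 < r → r < 1 → ∀ l, 29 / 10 ≤ |∏ i, (b l + r - b i)|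

/-- GEOC: real points with mutual distances at least `1` (product at the real points). -/
def Stmt_GeoC : Prop :=
  ∀ (n : ℕ) (b : Fin n → ℝ), 6 ≤ n → (∀ i j, i ≠ j → 1 ≤ |b i - b j|) →
    ∀ r : ℝ, 9 / 20 < r → r < 1 / 2 → ∀ l, 17 / 5 ≤ |∏ i, (b l + r - b i)|

/-- NEAR: in the last case a point has at most two near neighbours. -/
def Stmt_Near : Prop :=
  ∀ (n : ℕ) (b : Fin n → ℝ), (∀ i j, i ≠ j → 1 ≤ |b i - b j|) →
    ∀ l, (Finset.univ.filter fun i => i ≠ l ∧ |b l - b i| < 2).card ≤ 2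

/-! ## Loops -/

/-- the circle of radius `r` around `c` -/
def circ (c : ℂ) (r θ : ℝ) : ℂ := c + r * Complex.exp (θ * Complex.I)

/-- `(1 - √(1 - 4/m²))/2` -/
def dl (m : ℝ) : ℝ := (1 - √(1 - 4 / m ^ 2)) / 2

/-- PHI: the solution `y = P φ` of `y² - P y + 1 = 0` with `φ` near `1`. -/
def Stmt_Phi : Prop :=
  ∀ (P : ℝ → ℂ) (m : ℝ), 2 < m → ContDiff ℝ 1 P → (∀ θ, P (θ + 2 * Real.pi) = P θ) →
    (∀ θ, m ≤ ‖P θ‖) →
    ∃ φ : ℝ → ℂ, ContDiff ℝ 1 φ ∧ (∀ θ, φ (θ + 2 * Real.pi) = φ θ) ∧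
      (∀ θ, ‖φ θ - 1‖ ≤ dl m) ∧
      (∀ θ, (P θ * φ θ) ^ 2 - P θ * (P θ * φ θ) + 1 = 0) ∧
      ((∀ θ, P (-θ) = (starRingEnd ℂ) (P θ)) → ∀ θ, φ (-θ) = (starRingEnd ℂ) (φ θ))

/-- TRANSC: the points of circles with transcendental radius around algebraic points are
transcendental, and there are many transcendental numbers. -/
def Stmt_Transc : Prop :=
  (∀ u v : ℝ, u < v → ∃ r : ℝ, u < r ∧ r < v ∧ Transcendental ℚ r) ∧
  ∀ (k : Type) [Field k] [NumberField k] (σ : k →+* ℂ) (a : k) (r θ : ℝ), 0 < r →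
    Transcendental ℚ r → ∀ p : k[X], p ≠ 0 → (p.map σ).eval (circ (σ a) r θ) ≠ 0

/-- EVAL: points with transcendental coordinate are generic. -/
def Stmt_Eval : Prop :=
  ∀ (k : Type) [Field k] (g : ℕ) (α : Fin (g + 1) → k) (σ : k →+* ℂ) (X Y : ℂ),
    Y ^ 2 - (∏ i, (X - σ (α i))) * Y + 1 = 0 → (∀ p : k[X], p ≠ 0 → (p.map σ).eval X ≠ 0) →
    ∃ e : FunField α →+* ℂ, (∀ c, e (cst α c) = σ c) ∧ e (fx α) = X ∧ e (fy α) = Y

/-- GEN: the function field is generated by the constants and `x`, `y`. -/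
def Stmt_Gen : Prop :=
  ∀ (k : Type) [Field k] (g : ℕ) (α : Fin (g + 1) → k),
    fy α ^ 2 - (∏ i, (fx α - cst α (α i))) * fy α + 1 = 0 ∧
    (∀ c, fx α ≠ cst α c) ∧
    ∀ S : Subfield (FunField α), (∀ c, cst α c ∈ S) → fx α ∈ S → fy α ∈ S → S = ⊤

/-- FLOOP (uses EVAL, GEN): loops of generic points. -/
def Stmt_FLoop : Prop :=
  ∀ (k : Type) [Field k] (g : ℕ) (α : Fin (g + 1) → k) (σ : k →+* ℂ) (X Y : ℝ → ℂ),
    ContDiff ℝ 1 X → ContDiff ℝ 1 Y →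
    (∀ θ, X (θ + 2 * Real.pi) = X θ) → (∀ θ, Y (θ + 2 * Real.pi) = Y θ) →
    (∀ θ, Y θ ^ 2 - (∏ i, (X θ - σ (α i))) * Y θ + 1 = 0) →
    (∀ θ (p : k[X]), p ≠ 0 → (p.map σ).eval (X θ) ≠ 0) →
    ∃ γ : Loop (FunField α), (∀ θ c, γ.ev θ (cst α c) = σ c) ∧
      (∀ θ, γ.ev θ (fx α) = X θ) ∧ (∀ θ, γ.ev θ (fy α) = Y θ) ∧
      ((∀ c, (σ c).im = 0) → (∀ θ, X (-θ) = (starRingEnd ℂ) (X θ)) →
        (∀ θ, Y (-θ) = (starRingEnd ℂ) (Y θ)) →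
        ∀ θ f, γ.ev (-θ) f = (starRingEnd ℂ) (γ.ev θ f))

/-! ## The regulator -/

/-- periodic `C¹` functions without zeros -/
structure Nz (f : ℝ → ℂ) : Prop where
  smooth : ContDiff ℝ 1 f
  periodic : ∀ θ, f (θ + 2 * Real.pi) = f θ
  ne : ∀ θ, f θ ≠ 0

/-- the winding number -/
def wind (f : ℝ → ℂ) : ℝ := 1 / (2 * Real.pi) * ∫ θ in (0 : ℝ)..2 * Real.pi, darg f θ

/-- REG: rules for the regulator integral and the winding number. -/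
def Stmt_Reg : Prop :=
  (∀ f f' g : ℝ → ℂ, Nz f → Nz f' → Nz g →
    regz (fun θ => f θ * f' θ) g = regz f g + regz f' g) ∧
  (∀ f g g' : ℝ → ℂ, Nz f → Nz g → Nz g' →
    regz f (fun θ => g θ * g' θ) = regz f g + regz f g') ∧
  (∀ f g : ℝ → ℂ, regz g f = - regz f g) ∧
  (∀ (c : ℂ) (g : ℝ → ℂ), regz (fun _ => c) g = Real.log ‖c‖ * wind g) ∧
  (∀ f g : ℝ → ℂ, Nz f → Nz g → wind (fun θ => f θ * g θ) = wind f + wind g) ∧
  (∀ c : ℂ, wind (fun _ => c) = 0)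

/-- REGMAP (uses REG, DILOG): the regulator along a loop is a linear map on `K₂(F) ⊗ ℚ`. -/
def Stmt_RegMap : Prop :=
  ∀ (F : Type) [Field F] (γ : Loop F), ∃ R : K2Q F →ₗ[ℚ] ℝ,
    ∀ a b : Fˣ, R (usymb a b) = regz (fun θ => γ.ev θ a) (fun θ => γ.ev θ b)

/-- WIND: winding numbers of circles. -/
def Stmt_Wind : Prop :=
  ∀ (c : ℂ) (r : ℝ), 0 < r → Nz (fun θ => circ c r θ - c) ∧ wind (fun θ => circ c r θ - c) = 1 ∧
    ∀ a : ℂ, r < ‖c - a‖ → Nz (fun θ => circ c r θ - a) ∧ wind (fun θ => circ c r θ - a) = 0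

/-- LIN (uses REG, DILOG): the regulator of two linear functions. -/
def Stmt_Lin : Prop :=
  ∀ (X : ℝ → ℂ) (a b : ℂ), a ≠ b → Nz (fun θ => X θ - a) → Nz (fun θ => X θ - b) →
    regz (fun θ => X θ - a) (fun θ => X θ - b) =
      Real.log ‖a - b‖ * (wind (fun θ => X θ - b) - wind (fun θ => X θ - a))

/-- PERTB: the regulator of a function near `1`. -/
def Stmt_PertB : Prop :=
  ∀ (φ h : ℝ → ℂ) (δ M : ℝ), Nz φ → Nz h → 0 ≤ δ → δ < 1 → (∀ θ, ‖φ θ - 1‖ ≤ δ) →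
    (∀ θ, ‖deriv h θ / h θ‖ ≤ M) → |regz φ h| ≤ (δ + δ ^ 2 / (1 - δ) / 2) * M

/-- SELF (uses REG, DILOG): the regulator of `{y, y + 1/y}`. -/
def Stmt_Self : Prop :=
  ∀ Y P : ℝ → ℂ, Nz Y → Nz P → (∀ θ, Y θ ^ 2 - P θ * Y θ + 1 = 0) → regz Y P = 0

/-- EST (uses REG, WIND, LIN, PERTB, SELF): the regulators of `{y, x - a_j}` along the circle
around `a_l`. -/
def Stmt_Est : Prop :=
  ∀ (g : ℕ) (a : Fin (g + 1) → ℂ) (r δ : ℝ) (l : Fin (g + 1)) (φ : ℝ → ℂ), 0 < r →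
    (∀ i j, i ≠ j → 2 * r ≤ ‖a i - a j‖) → ContDiff ℝ 1 φ →
    (∀ θ, φ (θ + 2 * Real.pi) = φ θ) → 0 ≤ δ → δ < 1 → (∀ θ, ‖φ θ - 1‖ ≤ δ) →
    (∀ θ, ((∏ i, (circ (a l) r θ - a i)) * φ θ) ^ 2 -
      (∏ i, (circ (a l) r θ - a i)) * ((∏ i, (circ (a l) r θ - a i)) * φ θ) + 1 = 0) →
    (∀ j, j ≠ l → |regz (fun θ => (∏ i, (circ (a l) r θ - a i)) * φ θ)
        (fun θ => circ (a l) r θ - a j) + Real.log ‖a l - a j‖| ≤ δ + δ ^ 2 / (1 - δ) / 2) ∧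
    ∑ j, regz (fun θ => (∏ i, (circ (a l) r θ - a i)) * φ θ) (fun θ => circ (a l) r θ - a j) = 0

/-! ## Linear algebra -/

/-- MAXP: a maximum principle. -/
def Stmt_MaxP : Prop :=
  ∀ (n : ℕ) (M : Fin n → Fin n → ℝ) (near : Fin n → Fin n → Prop) (ε ω : ℝ), 0 ≤ ε →
    4 * ε < ω → (∀ i j, near i j → near j i) →
    (∀ l, Set.ncard {i | i ≠ l ∧ near l i} ≤ 2) →
    (∀ l m, l ≠ m → near l m → ∃ i, i ≠ l ∧ i ≠ m ∧ ¬ near l i ∧ ¬ near m i) →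
    (∀ l i, i ≠ l → near l i → M l i ≤ ε) → (∀ l i, i ≠ l → ¬ near l i → M l i ≤ -ω) →
    (∀ l, ∑ i, M l i = 0) →
    ∀ v : Fin n → ℝ, (∀ l, ∑ i, M l i * v i = 0) → ∀ i j, v i = v j

/-- ROWS: `g` rows of a matrix with independent columns. -/
def Stmt_Rows : Prop :=
  ∀ (n g : ℕ) (N : Fin n → Fin g → ℝ), (∀ v : Fin g → ℝ, (∀ l, ∑ j, N l j * v j = 0) → v = 0) →
    ∃ s : Fin g → Fin n, (Matrix.of fun l j : Fin g => N (s l) j).det ≠ 0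

end

end Pool.Agent.K2B
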