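import Pool.Agent.K2B.Stmts
import Pool.Agent.BEK.Trans

set_option autoImplicit false

/-! # TRANSC -/

namespace Pool.Agent.K2B

open Pool.Agent.BEK.TransX

theorem transc_proof : Stmt_Transc := by
  refine ⟨?_, ?_⟩
  · intro u v huv
    have hc : {x : ℝ | IsAlgebraic ℚ x}.Countable := Algebraic.countable ℚ ℝ
    have hd : Dense {x : ℝ | IsAlgebraic ℚ x}ᶜ := hc.dense_compl ℝ
    obtain ⟨c, hc1, hc2⟩ := hd.exists_between huv
    exact ⟨c, hc2.1, hc2.2, hc1⟩
  · intro k _ _ σ a r θ hr htr p hp hpX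
    apply htr
    set X : ℂ := circ (σ a) r θ with hX
    have hXalg : IsAlgebraic ℚ X := alg_of_root σ X p hp hpX
    have ha : IsAlgebraic ℚ (σ a) := alg_elem σ a
    have hd : IsAlgebraic ℚ (X - σ a) := hXalg.sub ha
    have hd' : IsAlgebraic ℚ ((starRingEnd ℂ) (X - σ a)) :=
      hd.algHom (Complex.conjAe.toAlgHom.restrictScalars ℚ)
    have hprod : IsAlgebraic ℚ ((X - σ a) * (starRingEnd ℂ) (X - σ a)) := hd.mul hd'
    have e : (X - σ a) * (starRingEnd ℂ) (X - σ a) = algebraMap ℝ ℂ (r ^ 2) := by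
      rw [Complex.mul_conj, Complex.normSq_eq_norm_sq, hX]
      unfold circ
      rw [add_sub_cancel_left, norm_mul, Complex.norm_exp_ofReal_mul_I, mul_one,
        Complex.norm_real, Real.norm_eq_abs, sq_abs]
      rfl
    rw [e] at hprod
    have h2 : IsAlgebraic ℚ (r ^ 2) :=
      (isAlgebraic_algebraMap_iff (algebraMap ℝ ℂ).injective).mp hprod
    exact h2.of_pow (by norm_num)

end Pool.Agent.K2B
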