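import Pool.Agent.K2B.Stmts

/-!
# Module WIND
-/

set_option autoImplicit false

namespace Pool.Agent.K2B

open Pool.Agent.BEK

noncomputable section

namespace WindX

theorem hasDerivAt_circ (c a : ℂ) (r θ : ℝ) :
    HasDerivAt (fun θ : ℝ => circ c r θ - a) (r * (Complex.exp (θ * Complex.I) * Complex.I)) θ := by
  have h6 : HasDerivAt (fun θ : ℝ => (θ : ℂ) * Complex.I) Complex.I θ := by
    simpa using (Complex.ofRealCLM.hasDerivAt (x := θ)).mul_const Complex.I
  unfold circ
  exact ((h6.cexp.const_mul (r : ℂ)).const_add c).sub_const a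

theorem contDiff_circ (c a : ℂ) (r : ℝ) : ContDiff ℝ 1 (fun θ : ℝ => circ c r θ - a) := by
  unfold circ
  have h1 : ContDiff ℝ 1 (fun θ : ℝ => (θ : ℂ)) := Complex.ofRealCLM.contDiff
  exact (contDiff_const.add (contDiff_const.mul ((h1.mul contDiff_const).cexp))).sub contDiff_const

theorem exp_periodic (θ : ℝ) : Complex.exp (((θ + 2 * Real.pi : ℝ) : ℂ) * Complex.I) =
    Complex.exp (θ * Complex.I) := by
  push_cast
  rw [add_mul, Complex.exp_add, Complex.exp_two_pi_mul_I, mul_one]

theorem circ_periodic (c : ℂ) (r θ : ℝ) : circ c r (θ + 2 * Real.pi) = circ c r θ := by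
  unfold circ
  rw [exp_periodic]

end WindX

open WindX in
theorem wind_proof : Stmt_Wind := by
  intro c r hr
  have hr0 : (r : ℂ) ≠ 0 := by exact_mod_cast hr.ne'
  have hnorm : ∀ θ : ℝ, ‖(r : ℂ) * Complex.exp (θ * Complex.I)‖ = r := fun θ => by
    rw [norm_mul, Complex.norm_exp_ofReal_mul_I, mul_one, Complex.norm_real,
      Real.norm_of_nonneg hr.le]
  refine ⟨⟨contDiff_circ c c r, fun θ => by rw [circ_periodic], fun θ => ?_⟩, ?_, ?_⟩
  · unfold circ
    rw [add_sub_cancel_left]
    exact mul_ne_zero hr0 (Complex.exp_ne_zero _)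
  · have h1 : ∀ θ, darg (fun θ => circ c r θ - c) θ = 1 := by
      intro θ
      unfold darg
      rw [(hasDerivAt_circ c c r θ).deriv]
      simp only [circ]
      rw [add_sub_cancel_left]
      have h2 : (r : ℂ) * (Complex.exp (θ * Complex.I) * Complex.I) /
          (r * Complex.exp (θ * Complex.I)) = Complex.I := by
        have := Complex.exp_ne_zero ((θ : ℂ) * Complex.I)
        field_simp
      rw [h2, Complex.I_im]
    unfold wind
    simp only [h1]
    rw [intervalIntegral.integral_const, smul_eq_mul, sub_zero, mul_one]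
    field_simp
  · intro a ha
    have hca : c - a ≠ 0 := by
      intro h0
      rw [h0, norm_zero] at ha
      linarith
    have hne : ∀ θ, circ c r θ - a ≠ 0 := by
      intro θ h0
      have h1 : c - a = -(r * Complex.exp (θ * Complex.I)) := by
        unfold circ at h0
        linear_combination h0
      rw [h1, norm_neg, hnorm] at ha
      exact lt_irrefl _ ha
    refine ⟨⟨contDiff_circ c a r, fun θ => by rw [circ_periodic], hne⟩, ?_⟩
    -- the primitive
    let u : ℝ → ℂ := fun θ => r * Complex.exp (θ * Complex.I) / (c - a)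
    have hu : ∀ θ, ‖u θ‖ < 1 := fun θ => by
      change ‖(r : ℂ) * Complex.exp (θ * Complex.I) / (c - a)‖ < 1
      rw [norm_div, hnorm]
      exact (div_lt_one (norm_pos_iff.mpr hca)).mpr ha
    have hslit : ∀ θ, 1 + u θ ∈ Complex.slitPlane := fun θ =>
      Complex.mem_slitPlane_of_norm_lt_one (hu θ)
    have hud : ∀ θ : ℝ, HasDerivAt u
        (r * (Complex.exp (θ * Complex.I) * Complex.I) / (c - a)) θ := by
      intro θ
      have h1 := (hasDerivAt_circ 0 0 r θ).div_const (c - a)
      refine h1.congr_of_eventuallyEq (Filter.Eventually.of_forall fun t => ?_)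
      change (r : ℂ) * Complex.exp (t * Complex.I) / (c - a) = (circ 0 r t - 0) / (c - a)
      unfold circ
      rw [zero_add, sub_zero]
    have hL : ∀ θ : ℝ, HasDerivAt (fun θ => Complex.log (1 + u θ))
        ((r * (Complex.exp (θ * Complex.I) * Complex.I) / (c - a)) / (1 + u θ)) θ := fun θ =>
      ((hud θ).const_add 1).clog_real (hslit θ)
    have hLim : ∀ θ : ℝ, HasDerivAt (fun θ => (Complex.log (1 + u θ)).im)
        (darg (fun θ => circ c r θ - a) θ) θ := by
      intro θ
      have h1 := Complex.imCLM.hasFDerivAt.comp_hasDerivAt θ (hL θ)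
      have h2 : darg (fun θ => circ c r θ - a) θ =
          ((r * (Complex.exp (θ * Complex.I) * Complex.I) / (c - a)) / (1 + u θ)).im := by
        unfold darg
        rw [(hasDerivAt_circ c a r θ).deriv]
        beta_reduce
        congr 1
        have h3 : circ c r θ - a = (c - a) * (1 + u θ) := by
          change circ c r θ - a = (c - a) * (1 + r * Complex.exp (θ * Complex.I) / (c - a))
          unfold circ
          field_simp
          ring
        have h4 : 1 + u θ ≠ 0 := Complex.slitPlane_ne_zero (hslit θ)
        rw [h3]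
        field_simp
      rw [h2]
      exact h1
    have hcont : Continuous fun θ => darg (fun θ => circ c r θ - a) θ := by
      unfold darg
      refine Complex.continuous_im.comp (Continuous.div ?_ ?_ hne)
      · exact (contDiff_circ c a r).continuous_deriv le_rfl
      · exact (contDiff_circ c a r).continuous
    unfold wind
    rw [intervalIntegral.integral_eq_sub_of_hasDerivAt (fun θ _ => hLim θ)
      (hcont.intervalIntegrable _ _)]
    have h5 : u (2 * Real.pi) = u 0 := by
      change (r : ℂ) * Complex.exp (((2 * Real.pi : ℝ) : ℂ) * Complex.I) / (c - a) =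
        r * Complex.exp (((0 : ℝ) : ℂ) * Complex.I) / (c - a)
      rw [← exp_periodic 0, zero_add]
    rw [h5, sub_self, mul_zero]

end

end Pool.Agent.K2B
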